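import Mathlib

set_option autoImplicit false

namespace Pool.Agent.Helper461.E2

section aux

variable {A B : ℕ → Type}

/-- value attached to the number `n` of the dyadic block `m`, which codes the bit `i` of level `k` -/
noncomputable def cval (enc : ∀ k, A k ⊕ B k → ℕ) (p : (k : ℕ) → A k → Bool)
    (q : (k : ℕ) → B k → Bool) (k i m n : ℕ) : Bool :=
  match Function.partialInv (enc k) i with
  | none => false
  | some (Sum.inl a) => if n < 2 ^ m + 2 ^ (m - k) then p k a else false
  | some (Sum.inr b) => q k b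

lemma cval_none (enc : ∀ k, A k ⊕ B k → ℕ) (p : (k : ℕ) → A k → Bool)
    (q : (k : ℕ) → B k → Bool) {k i : ℕ} (m n : ℕ) (h : Function.partialInv (enc k) i = none) :
    cval enc p q k i m n = false := by
  simp only [cval, h]

lemma cval_inl (enc : ∀ k, A k ⊕ B k → ℕ) (p : (k : ℕ) → A k → Bool)
    (q : (k : ℕ) → B k → Bool) {k i : ℕ} (m n : ℕ) {a : A k}
    (h : Function.partialInv (enc k) i = some (Sum.inl a)) :
    cval enc p q k i m n = if n < 2 ^ m + 2 ^ (m - k) then p k a else false := by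
  simp only [cval, h]

lemma cval_inr (enc : ∀ k, A k ⊕ B k → ℕ) (p : (k : ℕ) → A k → Bool)
    (q : (k : ℕ) → B k → Bool) {k i : ℕ} (m n : ℕ) {b : B k}
    (h : Function.partialInv (enc k) i = some (Sum.inr b)) :
    cval enc p q k i m n = q k b := by
  simp only [cval, h]

/-- the coding map -/
noncomputable def Phi (enc : ∀ k, A k ⊕ B k → ℕ) (p : (k : ℕ) → A k → Bool)
    (q : (k : ℕ) → B k → Bool) (n : ℕ) : Bool :=
  if n = 0 then false else
    cval enc p q (Nat.unpair (Nat.log 2 n)).1 (Nat.unpair (Nat.log 2 n)).2 (Nat.log 2 n) n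

/-- dyadic block of the bit `x` of level `k` -/
def bm (enc : ∀ k, A k ⊕ B k → ℕ) (k : ℕ) (x : A k ⊕ B k) : ℕ := Nat.pair k (enc k x)

lemma le_bm (enc : ∀ k, A k ⊕ B k → ℕ) (k : ℕ) (x : A k ⊕ B k) : k ≤ bm enc k x :=
  Nat.left_le_pair _ _

/-- interval of numbers coding the bit `a` -/
def blA (enc : ∀ k, A k ⊕ B k → ℕ) (k : ℕ) (a : A k) : Finset ℕ :=
  Finset.Ico (2 ^ bm enc k (Sum.inl a)) (2 ^ bm enc k (Sum.inl a) + 2 ^ (bm enc k (Sum.inl a) - k))

lemma log_of_mem {m n : ℕ} (h1 : 2 ^ m ≤ n) (h2 : n < 2 ^ m + 2 ^ m) : Nat.log 2 n = m :=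
  Nat.log_eq_of_pow_le_of_lt_pow h1 (by rw [pow_succ]; omega)

lemma Phi_inl (enc : ∀ k, A k ⊕ B k → ℕ) (hinj : ∀ k, Function.Injective (enc k))
    (p : (k : ℕ) → A k → Bool) (q : (k : ℕ) → B k → Bool) {k : ℕ} {a : A k} {n : ℕ}
    (hn : n ∈ blA enc k a) : Phi enc p q n = p k a := by
  rw [blA, Finset.mem_Ico] at hn
  have hlt : n < 2 ^ bm enc k (Sum.inl a) + 2 ^ bm enc k (Sum.inl a) :=
    lt_of_lt_of_le hn.2 (Nat.add_le_add_left (Nat.pow_le_pow_right (by norm_num) (Nat.sub_le _ _)) _)
  have hlog := log_of_mem hn.1 hlt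
  have hn0 : n ≠ 0 := by
    have : 0 < 2 ^ bm enc k (Sum.inl a) := by positivity
    omega
  rw [Phi, if_neg hn0, hlog, bm, Nat.unpair_pair]
  have hd : Function.partialInv (enc k) (enc k (Sum.inl a)) = some (Sum.inl a) :=
    ((hinj k).isPartialInv _ _).2 rfl
  rw [cval_inl enc p q _ n hd, if_pos]
  exact hn.2

lemma Phi_inr (enc : ∀ k, A k ⊕ B k → ℕ) (hinj : ∀ k, Function.Injective (enc k))
    (p : (k : ℕ) → A k → Bool) (q : (k : ℕ) → B k → Bool) {k : ℕ} {b : B k} {n : ℕ}
    (h1 : 2 ^ bm enc k (Sum.inr b) ≤ n)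
    (h2 : n < 2 ^ bm enc k (Sum.inr b) + 2 ^ bm enc k (Sum.inr b)) : Phi enc p q n = q k b := by
  have hlog := log_of_mem h1 h2
  have hn0 : n ≠ 0 := by
    have : 0 < 2 ^ bm enc k (Sum.inr b) := by positivity
    omega
  rw [Phi, if_neg hn0, hlog, bm, Nat.unpair_pair]
  have hd : Function.partialInv (enc k) (enc k (Sum.inr b)) = some (Sum.inr b) :=
    ((hinj k).isPartialInv _ _).2 rfl
  rw [cval_inr enc p q _ n hd]

lemma Phi_cases (enc : ∀ k, A k ⊕ B k → ℕ) (hinj : ∀ k, Function.Injective (enc k)) (n : ℕ) :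
    (∀ p q, Phi enc p q n = false) ∨
    (∃ k, ∃ a : A k, n ∈ blA enc k a ∧ ∀ p q, Phi enc p q n = p k a) ∨
    (∃ k, ∃ b : B k, ∀ p q, Phi enc p q n = q k b) := by
  by_cases hn0 : n = 0
  · left; intro p q; rw [Phi, if_pos hn0]
  · set m := Nat.log 2 n with hm
    set k := (Nat.unpair m).1 with hk
    set i := (Nat.unpair m).2 with hi
    rcases hd : Function.partialInv (enc k) i with _ | (a | b)
    · left; intro p q
      rw [Phi, if_neg hn0]
      exact cval_none enc p q _ _ hd
    · have he : enc k (Sum.inl a) = i := ((hinj k).isPartialInv _ _).1 hd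
      have hbm : bm enc k (Sum.inl a) = m := by rw [bm, he, hk, hi, Nat.pair_unpair]
      by_cases hlt : n < 2 ^ m + 2 ^ (m - k)
      · right; left
        refine ⟨k, a, ?_, fun p q => ?_⟩
        · rw [blA, Finset.mem_Ico, hbm]
          exact ⟨Nat.pow_log_le_self 2 hn0, hlt⟩
        · rw [Phi, if_neg hn0]
          have := cval_inl enc p q m n hd
          rw [if_pos hlt] at this
          exact this
      · left; intro p q
        rw [Phi, if_neg hn0]
        have := cval_inl enc p q m n hd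
        rw [if_neg hlt] at this
        exact this
    · right; right
      refine ⟨k, b, fun p q => ?_⟩
      rw [Phi, if_neg hn0]
      exact cval_inr enc p q m n hd

/-- weight of a block, upper bound -/
lemma blA_le (enc : ∀ k, A k ⊕ B k → ℕ) (k : ℕ) (a : A k) :
    ∑ n ∈ blA enc k a, (1 : ℝ) / ((n : ℝ) + 1) ≤ (1 / 2) ^ k := by
  set m := bm enc k (Sum.inl a) with hm
  have hkm : k ≤ m := le_bm enc k _
  calc ∑ n ∈ blA enc k a, (1 : ℝ) / ((n : ℝ) + 1) ≤ ∑ n ∈ blA enc k a, (1 : ℝ) / 2 ^ m := by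
        refine Finset.sum_le_sum fun n hn => ?_
        rw [blA, Finset.mem_Ico] at hn
        refine one_div_le_one_div_of_le (by positivity) ?_
        have : ((2 ^ m : ℕ) : ℝ) ≤ n := by exact_mod_cast hn.1
        push_cast at this
        linarith
    _ = (2 : ℝ) ^ (m - k) * (1 / 2 ^ m) := by
        rw [Finset.sum_const, blA, Nat.card_Ico, nsmul_eq_mul, Nat.add_sub_cancel_left]
        push_cast
        rfl
    _ = (1 / 2) ^ k := by
        rw [pow_sub₀ _ two_ne_zero hkm, one_div, one_div, inv_pow]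
        field_simp

/-- weight of a block, lower bound -/
lemma le_blA (enc : ∀ k, A k ⊕ B k → ℕ) (k : ℕ) (a : A k) :
    (1 / 2) ^ (k + 1) ≤ ∑ n ∈ blA enc k a, (1 : ℝ) / ((n : ℝ) + 1) := by
  set m := bm enc k (Sum.inl a) with hm
  have hkm : k ≤ m := le_bm enc k _
  calc (1 / 2 : ℝ) ^ (k + 1) = (2 : ℝ) ^ (m - k) * (1 / 2 ^ (m + 1)) := by
        rw [pow_sub₀ _ two_ne_zero hkm, one_div, one_div, inv_pow]
        field_simp
        ring
    _ = ∑ n ∈ blA enc k a, (1 : ℝ) / 2 ^ (m + 1) := by
        rw [Finset.sum_const, blA, Nat.card_Ico, nsmul_eq_mul, Nat.add_sub_cancel_left]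
        push_cast
        rfl
    _ ≤ ∑ n ∈ blA enc k a, (1 : ℝ) / ((n : ℝ) + 1) := by
        refine Finset.sum_le_sum fun n hn => ?_
        rw [blA, ← hm, Finset.mem_Ico] at hn
        refine one_div_le_one_div_of_le (by positivity) ?_
        have h1 : 2 ^ (m - k) ≤ 2 ^ m := Nat.pow_le_pow_right (by norm_num) (Nat.sub_le _ _)
        have h2 : n + 1 ≤ 2 ^ (m + 1) := by rw [pow_succ]; omega
        exact_mod_cast h2

lemma tail (g : ℕ → ℝ) (hg : Summable g) :
    ∃ K : ℕ, ∀ t : Finset ℕ, (∀ n ∈ t, K ≤ n) → ∑ n ∈ t, g n < 1 / 16 := by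
  obtain ⟨s, hs⟩ := summable_iff_vanishing_norm.1 hg (1 / 16) (by norm_num)
  refine ⟨s.sup id + 1, fun t ht => ?_⟩
  refine lt_of_le_of_lt (le_abs_self _) (hs t ?_)
  rw [Finset.disjoint_left]
  intro n hn hns
  have h1 := ht n hn
  have h2 : n ≤ s.sup id := Finset.le_sup (f := id) hns
  omega

lemma sum_biUnion_le' {ι α : Type} [DecidableEq α] (s : Finset ι) (t : ι → Finset α)
    (f : α → ℝ) (hf : ∀ x, 0 ≤ f x) : ∑ x ∈ s.biUnion t, f x ≤ ∑ i ∈ s, ∑ x ∈ t i, f x := by
  classical
  induction s using Finset.induction_on with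
  | empty => simp
  | insert a s ha ih =>
    rw [Finset.biUnion_insert, Finset.sum_insert ha]
    have h1 := Finset.sum_union_inter (s₁ := t a) (s₂ := s.biUnion t) (f := f)
    have h2 : 0 ≤ ∑ x ∈ t a ∩ s.biUnion t, f x := Finset.sum_nonneg fun x _ => hf x
    linarith

end aux

/-- coding of two families of bits in the harmonic weights: bits of level `k` of the first family
get weight about `2⁻ᵏ`, bits of the second family get weight about one -/
theorem coding (A B : ℕ → Type) [∀ k, Finite (A k)] [∀ k, Finite (B k)] :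
    ∃ Φ : ((k : ℕ) → A k → Bool) → ((k : ℕ) → B k → Bool) → (ℕ → Bool),
      (∀ n : ℕ, (∀ p q, Φ p q n = false) ∨ (∃ k, ∃ a : A k, ∀ p q, Φ p q n = p k a) ∨
        (∃ k, ∃ b : B k, ∀ p q, Φ p q n = q k b)) ∧
      (∀ p p' q, (∀ k, {a | p k a ≠ p' k a}.ncard ≤ 1) →
        Summable (fun n : ℕ => if Φ p q n = Φ p' q n then (0 : ℝ) else (1 : ℝ) / ((n : ℝ) + 1))) ∧
      (∀ p p' q q',
        Summable (fun n : ℕ => if Φ p q n = Φ p' q' n then (0 : ℝ) else (1 : ℝ) / ((n : ℝ) + 1)) →
        ∃ K : ℕ, ∀ k, K ≤ k → 8 * {a | p k a ≠ p' k a}.ncard < 2 ^ k ∧ q k = q' k) := by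
  classical
  have henc : ∀ k, ∃ f : A k ⊕ B k → ℕ, Function.Injective f :=
    fun k => exists_injective_nat (A k ⊕ B k)
  choose enc hinj using henc
  refine ⟨Phi enc, ?_, ?_, ?_⟩
  · intro n
    rcases Phi_cases enc hinj n with h | ⟨k, a, -, h⟩ | h
    · exact Or.inl h
    · exact Or.inr (Or.inl ⟨k, a, h⟩)
    · exact Or.inr (Or.inr h)
  · intro p p' q hpp
    let Bk : ℕ → Finset ℕ := fun k =>
      if h : ∃ a, p k a ≠ p' k a then blA enc k h.choose else ∅
    have hBk : ∀ k, ∑ n ∈ Bk k, (1 : ℝ) / ((n : ℝ) + 1) ≤ (1 / 2) ^ k := by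
      intro k
      by_cases h : ∃ a, p k a ≠ p' k a
      · simp only [Bk, dif_pos h]; exact blA_le enc k _
      · simp only [Bk, dif_neg h, Finset.sum_empty]; positivity
    refine summable_of_sum_range_le (c := 2) (fun n => ?_) (fun N => ?_)
    · split_ifs
      · exact le_rfl
      · positivity
    · calc ∑ n ∈ Finset.range N,
            (if Phi enc p q n = Phi enc p' q n then (0 : ℝ) else (1 : ℝ) / ((n : ℝ) + 1))
          = ∑ n ∈ (Finset.range N).filter (fun n => ¬ Phi enc p q n = Phi enc p' q n),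
              (1 : ℝ) / ((n : ℝ) + 1) := by
            rw [Finset.sum_filter]
            refine Finset.sum_congr rfl fun n _ => ?_
            by_cases h : Phi enc p q n = Phi enc p' q n
            · simp [h]
            · simp [h]
        _ ≤ ∑ n ∈ (Finset.range N).biUnion Bk, (1 : ℝ) / ((n : ℝ) + 1) := by
            refine Finset.sum_le_sum_of_subset_of_nonneg ?_ (fun n _ _ => by positivity)
            intro n hn
            rw [Finset.mem_filter, Finset.mem_range] at hn
            rcases Phi_cases enc hinj n with h | ⟨k, a, hna, h⟩ | ⟨k, b, h⟩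
            · exact absurd ((h p q).trans (h p' q).symm) hn.2
            · have hda : p k a ≠ p' k a := by
                rw [← h p q, ← h p' q]; exact hn.2
              have hex : ∃ a, p k a ≠ p' k a := ⟨a, hda⟩
              have hu : a = hex.choose :=
                (Set.ncard_le_one (Set.toFinite _)).1 (hpp k) a hda _ hex.choose_spec
              rw [Finset.mem_biUnion]
              refine ⟨k, ?_, ?_⟩
              · rw [Finset.mem_range]
                refine lt_of_le_of_lt ?_ hn.1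
                rw [blA, Finset.mem_Ico] at hna
                refine le_trans ?_ hna.1
                exact (le_bm enc k (Sum.inl a)).trans (Nat.lt_two_pow_self).le
              · simp only [Bk, dif_pos hex]
                rw [← hu]; exact hna
            · exact absurd ((h p q).trans (h p' q).symm) hn.2
        _ ≤ ∑ k ∈ Finset.range N, ∑ n ∈ Bk k, (1 : ℝ) / ((n : ℝ) + 1) := by
            exact sum_biUnion_le' _ _ _ (fun n => by positivity)
        _ ≤ ∑ k ∈ Finset.range N, (1 / 2 : ℝ) ^ k := Finset.sum_le_sum fun k _ => hBk k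
        _ ≤ 2 := sum_geometric_two_le N
  · intro p p' q q' hS
    obtain ⟨K, hK⟩ := tail _ hS
    refine ⟨K, fun k hk => ⟨?_, ?_⟩⟩
    · have hfin : {a | p k a ≠ p' k a}.Finite := Set.toFinite _
      set T := hfin.toFinset with hT
      have hTm : ∀ a ∈ T, p k a ≠ p' k a := fun a ha => by
        simpa [hT] using ha
      have hcard : {a | p k a ≠ p' k a}.ncard = T.card := Set.ncard_eq_toFinset_card _ hfin
      have hdisj : (T : Set (A k)).PairwiseDisjoint (blA enc k) := by
        intro a _ a' _ haa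
        rw [Function.onFun, Finset.disjoint_left]
        intro n hn hn'
        apply haa
        rw [blA, Finset.mem_Ico] at hn hn'
        have h1 := log_of_mem hn.1 (lt_of_lt_of_le hn.2 (Nat.add_le_add_left
          (Nat.pow_le_pow_right (by norm_num) (Nat.sub_le _ _)) _))
        have h2 := log_of_mem hn'.1 (lt_of_lt_of_le hn'.2 (Nat.add_le_add_left
          (Nat.pow_le_pow_right (by norm_num) (Nat.sub_le _ _)) _))
        have h3 : bm enc k (Sum.inl a) = bm enc k (Sum.inl a') := h1.symm.trans h2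
        rw [bm, bm, Nat.pair_eq_pair] at h3
        exact Sum.inl_injective (hinj k h3.2)
      have hlt := hK (T.biUnion (blA enc k)) (by
        intro n hn
        rw [Finset.mem_biUnion] at hn
        obtain ⟨a, _, hna⟩ := hn
        rw [blA, Finset.mem_Ico] at hna
        exact hk.trans ((le_bm enc k (Sum.inl a)).trans ((Nat.lt_two_pow_self).le.trans hna.1)))
      rw [Finset.sum_biUnion hdisj] at hlt
      have hge : (T.card : ℝ) * (1 / 2) ^ (k + 1) ≤ ∑ a ∈ T, ∑ n ∈ blA enc k a,
          (if Phi enc p q n = Phi enc p' q' n then (0 : ℝ) else (1 : ℝ) / ((n : ℝ) + 1)) := by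
        rw [← nsmul_eq_mul, ← Finset.sum_const]
        refine Finset.sum_le_sum fun a ha => ?_
        refine (le_blA enc k a).trans (le_of_eq ?_)
        refine Finset.sum_congr rfl fun n hn => ?_
        rw [Phi_inl enc hinj p q hn, Phi_inl enc hinj p' q' hn, if_neg (hTm a ha)]
      have h3 := lt_of_le_of_lt hge hlt
      rw [hcard]
      have h4 : (8 * T.card : ℝ) < 2 ^ k := by
        rw [one_div, inv_pow, ← div_eq_mul_inv, div_lt_iff₀ (by positivity), pow_succ] at h3
        linarith
      exact_mod_cast h4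
    · by_contra hne
      obtain ⟨b, hb⟩ := Function.ne_iff.1 hne
      set m := bm enc k (Sum.inr b) with hm
      have hkm : k ≤ m := le_bm enc k _
      have hlt := hK (Finset.Ico (2 ^ m) (2 ^ m + 2 ^ m)) (by
        intro n hn
        rw [Finset.mem_Ico] at hn
        exact hk.trans (hkm.trans ((Nat.lt_two_pow_self).le.trans hn.1)))
      have hge : (1 / 2 : ℝ) ≤ ∑ n ∈ Finset.Ico (2 ^ m) (2 ^ m + 2 ^ m),
          (if Phi enc p q n = Phi enc p' q' n then (0 : ℝ) else (1 : ℝ) / ((n : ℝ) + 1)) := by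
        calc (1 / 2 : ℝ) = (2 : ℝ) ^ m * (1 / 2 ^ (m + 1)) := by
              rw [pow_succ]; field_simp
          _ = ∑ n ∈ Finset.Ico (2 ^ m) (2 ^ m + 2 ^ m), (1 : ℝ) / 2 ^ (m + 1) := by
              rw [Finset.sum_const, Nat.card_Ico, nsmul_eq_mul, Nat.add_sub_cancel_left]
              push_cast
              rfl
          _ ≤ _ := by
              refine Finset.sum_le_sum fun n hn => ?_
              rw [Finset.mem_Ico] at hn
              rw [Phi_inr enc hinj p q hn.1 hn.2, Phi_inr enc hinj p' q' hn.1 hn.2, if_neg hb]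
              refine one_div_le_one_div_of_le (by positivity) ?_
              have h2 : n + 1 ≤ 2 ^ (m + 1) := by rw [pow_succ]; omega
              exact_mod_cast h2
      have := lt_of_le_of_lt hge hlt
      norm_num at this

end Pool.Agent.Helper461.E2
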