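import Mathlib

set_option autoImplicit false

namespace Pool.Agent.Helper461.E2

noncomputable section

open scoped Classical in
/-- equality as a bit -/
def eqb {I : Type} (a b : I) : Bool := decide (a = b)

lemma eqb_self {I : Type} (a : I) : eqb a a = true := by simp [eqb]

lemma eqb_ne {I : Type} {a b : I} (h : a ≠ b) : eqb a b = false := by simp [eqb, h]

lemma eqb_iff {I : Type} {a b : I} : eqb a b = true ↔ a = b := by simp [eqb]

lemma eqb_congr {I J : Type} {a b : I} {c d : J} (h : a = b ↔ c = d) : eqb a b = eqb c d := by
  simp [eqb, h]

lemma eqb_prod {I J : Type} (a b : I × J) : eqb a b = (eqb a.1 b.1 && eqb a.2 b.2) := by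
  by_cases h1 : a.1 = b.1 <;> by_cases h2 : a.2 = b.2 <;>
    simp [eqb, Prod.ext_iff, h1, h2]

/-- flip one bit of a family of bits -/
def flip {I : Type} (p : I → Bool) (e : I) : I → Bool := fun e' => xor (p e') (eqb e' e)

/-- number of ones -/
def card {I : Type} (p : I → Bool) : ℕ := Set.ncard {e | p e = true}

lemma flip_flip {I : Type} (p : I → Bool) (e : I) : flip (flip p e) e = p := by
  funext e'
  simp [flip]

lemma flip_ne {I : Type} (p : I → Bool) {e e' : I} (h : e' ≠ e) : flip p e e' = p e' := by
  simp [flip, eqb_ne h]

lemma flip_self {I : Type} (p : I → Bool) (e : I) : flip p e e = !p e := by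
  simp [flip, eqb_self]

lemma card_flip_true {I : Type} [Finite I] (p : I → Bool) (e : I) (h : p e = true) :
    card (flip p e) + 1 = card p := by
  have hs : {e' | flip p e e' = true} = {e' | p e' = true} \ {e} := by
    ext e'
    by_cases he : e' = e
    · subst he
      simp [flip_self, h]
    · simp [flip_ne p he, he]
  unfold card
  rw [hs]
  exact Set.ncard_sdiff_singleton_add_one (by exact h) (Set.toFinite _)

lemma card_flip_le {I : Type} [Finite I] (p : I → Bool) (e : I) :
    card (flip p e) ≤ card p + 1 := by
  have hs : {e' | flip p e e' = true} ⊆ insert e {e' | p e' = true} := by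
    intro e' he'
    by_cases he : e' = e
    · left; exact he
    · right
      have : flip p e e' = true := he'
      rwa [flip_ne p he] at this
  exact (Set.ncard_le_ncard hs (Set.toFinite _)).trans (Set.ncard_insert_le _ _)

lemma card_xor_le {I : Type} [Finite I] (p q : I → Bool) :
    card (fun e => xor (p e) (q e)) ≤ card p + card q := by
  have hs : {e | xor (p e) (q e) = true} ⊆ {e | p e = true} ∪ {e | q e = true} := by
    intro e he
    have he' : xor (p e) (q e) = true := he
    by_cases h : p e = true
    · left; exact h
    · right
      have : p e = false := by simpa using h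
      rw [this] at he'
      simpa using he'
  exact (Set.ncard_le_ncard hs (Set.toFinite _)).trans (Set.ncard_union_le _ _)

lemma card_pos_iff {I : Type} [Finite I] (p : I → Bool) : 0 < card p ↔ ∃ e, p e = true := by
  unfold card
  rw [Set.ncard_pos (Set.toFinite _)]
  rfl

lemma card_zero {I : Type} : card (fun _ : I => false) = 0 := by
  simp [card]

section generic

variable {V : Type} (t : Bool → Equiv.Perm V)

/-- apply a letter -/
def step (l : Bool × Bool) (v : V) : V := if l.2 then t l.1 v else (t l.1).symm v

/-- the edge traversed by a letter -/
def edge (l : Bool × Bool) (v : V) : V × Bool := (if l.2 then v else (t l.1).symm v, l.1)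

/-- apply a word, the last letter first -/
def act : List (Bool × Bool) → V → V
  | [], v => v
  | l :: w, v => step t l (act w v)

/-- parities of the edges traversed by a word -/
def par : List (Bool × Bool) → V → (V × Bool → Bool)
  | [], _ => fun _ => false
  | l :: w, v => flip (par w v) (edge t l (act t w v))

/-- parity of the degree -/
def bd (p : V × Bool → Bool) (v : V) : Bool :=
  xor (xor (p (v, true)) (p (v, false)))
    (xor (p ((t true).symm v, true)) (p ((t false).symm v, false)))

/-- the next level: parities of edges together with a vertex -/
def cov (s : Bool) : Equiv.Perm ((V × Bool → Bool) × V) where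
  toFun x := (flip x.1 (x.2, s), t s x.2)
  invFun x := (flip x.1 ((t s).symm x.2, s), (t s).symm x.2)
  left_inv := by
    rintro ⟨p, v⟩
    simp [flip_flip]
  right_inv := by
    rintro ⟨p, v⟩
    simp [flip_flip]

lemma step_cov (l : Bool × Bool) (x : (V × Bool → Bool) × V) :
    step (cov t) l x = (flip x.1 (edge t l x.2), step t l x.2) := by
  obtain ⟨s, b⟩ := l
  cases b <;> rfl

lemma act_cov (w : List (Bool × Bool)) (p : V × Bool → Bool) (v : V) :
    act (cov t) w (p, v) = (fun e => xor (p e) (par t w v e), act t w v) := by
  induction w with
  | nil => simp [act, par]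
  | cons l w ih =>
    simp only [act, par]
    rw [ih, step_cov]
    refine Prod.ext ?_ rfl
    funext e
    simp [flip]

lemma act_append (w w' : List (Bool × Bool)) (v : V) :
    act t (w ++ w') v = act t w (act t w' v) := by
  induction w with
  | nil => rfl
  | cons l w ih => simp only [List.cons_append, act, ih]

lemma par_append (w w' : List (Bool × Bool)) (v : V) (e : V × Bool) :
    par t (w ++ w') v e = xor (par t w (act t w' v) e) (par t w' v e) := by
  induction w with
  | nil => simp [par]
  | cons l w ih =>
    simp only [List.cons_append, par, flip, ih]
    rw [act_append]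
    generalize par t w (act t w' v) e = A
    generalize par t w' v e = B
    generalize eqb e (edge t l (act t w (act t w' v))) = C
    revert A B C
    decide

lemma bd_flip (p : V × Bool → Bool) (l : Bool × Bool) (u z : V) :
    bd t (flip p (edge t l u)) z =
      xor (bd t p z) (xor (eqb z u) (eqb z (step t l u))) := by
  obtain ⟨s, b⟩ := l
  have h1 : ∀ s : Bool, ∀ a b : V, eqb ((t s).symm a) b = eqb a (t s b) := by
    intro s a b
    exact eqb_congr (Equiv.symm_apply_eq _)
  have e1 : eqb true false = false := eqb_ne (by decide)
  have e2 : eqb false true = false := eqb_ne (by decide)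
  have e3 : eqb true true = true := eqb_self _
  have e4 : eqb false false = true := eqb_self _
  cases s <;> cases b <;>
    simp only [bd, flip, edge, step, eqb_prod, h1, e1, e2, e3, e4, Bool.and_true,
      Bool.and_false, Bool.xor_false, Bool.false_eq_true, if_false, if_true,
      Equiv.apply_symm_apply] <;>
    generalize p (z, true) = A1 <;> generalize p (z, false) = A2 <;>
    generalize p ((t true).symm z, true) = A3 <;>
    generalize p ((t false).symm z, false) = A4 <;>
    generalize eqb z u = A5
  · generalize eqb z ((t false).symm u) = A6
    revert A1 A2 A3 A4 A5 A6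
    decide
  · generalize eqb z ((t false) u) = A6
    revert A1 A2 A3 A4 A5 A6
    decide
  · generalize eqb z ((t true).symm u) = A6
    revert A1 A2 A3 A4 A5 A6
    decide
  · generalize eqb z ((t true) u) = A6
    revert A1 A2 A3 A4 A5 A6
    decide

lemma bd_par (w : List (Bool × Bool)) (v z : V) :
    bd t (par t w v) z = xor (eqb z v) (eqb z (act t w v)) := by
  induction w with
  | nil => simp [par, act, bd]
  | cons l w ih =>
    simp only [par, act]
    rw [bd_flip, ih]
    generalize eqb z v = A
    generalize eqb z (act t w v) = B
    generalize eqb z (step t l (act t w v)) = C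
    revert A B C
    decide

lemma bd_xor (p q : V × Bool → Bool) (z : V) :
    bd t (fun e => xor (p e) (q e)) z = xor (bd t p z) (bd t q z) := by
  simp only [bd]
  generalize p (z, true) = A1
  generalize p (z, false) = A2
  generalize p ((t true).symm z, true) = A3
  generalize p ((t false).symm z, false) = A4
  generalize q (z, true) = B1
  generalize q (z, false) = B2
  generalize q ((t true).symm z, true) = B3
  generalize q ((t false).symm z, false) = B4
  revert A1 A2 A3 A4 B1 B2 B3 B4
  decide

lemma card_par_le [Finite V] (w : List (Bool × Bool)) (v : V) :
    card (par t w v) ≤ w.length := by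
  induction w with
  | nil => simp [par, card_zero]
  | cons l w ih =>
    simp only [par, List.length_cons]
    exact (card_flip_le _ _).trans (by omega)

lemma edge_back (s b : Bool) (u : V) : edge t (s, !b) (step t (s, b) u) = edge t (s, b) u := by
  cases b <;> simp [edge, step]

lemma edge_inj (s b : Bool) (x y : V) (h : edge t (s, b) x = edge t (s, b) y) : x = y := by
  cases b <;> simpa [edge] using h

lemma edge_opp (s b : Bool) (x z : V) (h : edge t (s, !b) z = edge t (s, b) x) :
    z = step t (s, b) x := by
  cases b
  · simpa [edge, step] using h
  · simp only [edge, Bool.not_true, Bool.false_eq_true, if_false, if_true, Prod.mk.injEq,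
      and_true] at h
    simp only [step, if_true]
    rw [← h, Equiv.apply_symm_apply]

/-- closed reduced words have length at least `g` -/
def Gir (g : ℕ) : Prop :=
  ∀ w : List (Bool × Bool), w ≠ [] → FreeGroup.IsReduced w → ∀ v, act t w v = v → g ≤ w.length

lemma exists_letter (p : V × Bool → Bool) (u : V) (h : bd t p u = true) :
    ∃ l, p (edge t l u) = true := by
  by_contra hcon
  push Not at hcon
  have h1 := hcon (true, true)
  have h2 := hcon (false, true)
  have h3 := hcon (true, false)
  have h4 := hcon (false, false)
  simp only [edge, if_true, Bool.false_eq_true, if_false, Bool.not_eq_true] at h1 h2 h3 h4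
  simp [bd, h1, h2, h3, h4] at h

lemma isReduced_mid {w1 u w2 : List (Bool × Bool)} (h : FreeGroup.IsReduced (w1 ++ u ++ w2)) :
    FreeGroup.IsReduced u := by
  unfold FreeGroup.IsReduced at h ⊢
  rw [List.isChain_append, List.isChain_append] at h
  exact h.1.2.1

lemma isReduced_snoc {w : List (Bool × Bool)} {l : Bool × Bool} (hw : FreeGroup.IsReduced w)
    (h : ∀ w' l', w = w' ++ [l'] → l'.1 = l.1 → l'.2 = l.2) : FreeGroup.IsReduced (w ++ [l]) := by
  rcases List.eq_nil_or_concat w with rfl | ⟨w', l', rfl⟩
  · simp [FreeGroup.IsReduced]
  · unfold FreeGroup.IsReduced at hw ⊢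
    rw [List.isChain_append]
    refine ⟨hw, List.isChain_singleton _, ?_⟩
    intro x hx y hy
    simp only [List.concat_eq_append, List.getLast?_append, List.getLast?_singleton,
      Option.some_or, Option.mem_def, Option.some.injEq] at hx
    simp only [List.head?_cons, Option.mem_def, Option.some.injEq] at hy
    subst hx hy
    exact h w' _ (by simp)

/-- a set of edges with boundary `u + v` contains a trail from `u` to `v` -/
lemma trail [Finite V] : ∀ (n : ℕ) (p : V × Bool → Bool) (u v : V), card p = n →
    (∀ z, bd t p z = xor (eqb z u) (eqb z v)) →
    ∃ w, FreeGroup.IsReduced w ∧ act t w u = v ∧ w.length ≤ n ∧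
      card (fun e => xor (p e) (par t w u e)) ≤ n ∧
      ∀ w' l, w = w' ++ [l] → p (edge t l u) = true := by
  intro n
  induction n with
  | zero =>
    intro p u v hn hbd
    by_cases huv : u = v
    · refine ⟨[], by simp [FreeGroup.IsReduced], huv, le_rfl, ?_, ?_⟩
      · simp only [par, Bool.xor_false]
        exact hn.le
      · intro w' l h
        simp at h
    · exfalso
      have h1 := hbd u
      rw [eqb_self, eqb_ne huv] at h1
      obtain ⟨l, hl⟩ := exists_letter t p u h1
      have : 0 < card p := (card_pos_iff p).2 ⟨_, hl⟩
      omega
  | succ n ih =>
    intro p u v hn hbd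
    by_cases huv : u = v
    · refine ⟨[], by simp [FreeGroup.IsReduced], huv, by simp, ?_, ?_⟩
      · simp only [par, Bool.xor_false]
        exact hn.le
      · intro w' l h
        simp at h
    · have h1 := hbd u
      rw [eqb_self, eqb_ne huv] at h1
      obtain ⟨l, hl⟩ := exists_letter t p u h1
      have hc := card_flip_true p _ hl
      obtain ⟨w', hred, hact, hlen, hcard, hlast⟩ := ih (flip p (edge t l u)) (step t l u) v
        (by omega) (by
          intro z
          rw [bd_flip, hbd z]
          generalize eqb z u = A
          generalize eqb z v = B
          generalize eqb z (step t l u) = C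
          revert A B C
          decide)
      refine ⟨w' ++ [l], ?_, ?_, ?_, ?_, ?_⟩
      · refine isReduced_snoc hred ?_
        intro w'' l' hw'' h1
        by_contra h2
        have h3 := hlast w'' l' hw''
        have h4 : l' = (l.1, !l.2) := by
          refine Prod.ext h1 ?_
          cases hb : l.2 <;> cases hb' : l'.2 <;> simp_all
        rw [h4, edge_back, flip_self, hl] at h3
        simp at h3
      · rw [act_append]
        exact hact
      · simp only [List.length_append, List.length_cons, List.length_nil]
        omega
      · have he : (fun e => xor (p e) (par t (w' ++ [l]) u e)) =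
            fun e => xor (flip p (edge t l u) e) (par t w' (step t l u) e) := by
          funext e
          rw [par_append]
          simp only [act, par, flip, Bool.false_xor]
          generalize p e = A
          generalize par t w' (step t l u) e = B
          generalize eqb e (edge t l u) = C
          revert A B C
          decide
        rw [he]
        omega
      · intro w'' l'' h
        have h5 := List.append_inj_right' h (by simp)
        simp only [List.cons.injEq, and_true] at h5
        rw [← h5]
        exact hl

/-- a nonempty set of edges with even degrees has at least `g` elements -/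
lemma even_large [Finite V] {g : ℕ} (hg : Gir t g) (p : V × Bool → Bool)
    (hbd : ∀ z, bd t p z = false) (hp : ∃ e, p e = true) : g ≤ card p := by
  obtain ⟨⟨v, s⟩, he⟩ := hp
  have he' : p (edge t (s, true) v) = true := by simpa [edge] using he
  have hc := card_flip_true p _ he'
  obtain ⟨w, hred, hact, hlen, -, hlast⟩ := trail t (card (flip p (edge t (s, true) v)))
    (flip p (edge t (s, true) v)) (step t (s, true) v) v rfl (by
      intro z
      rw [bd_flip, hbd z]
      generalize eqb z v = A
      generalize eqb z (step t (s, true) v) = B
      revert A B
      decide)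
  have h1 := hg (w ++ [(s, true)]) (by simp) (by
      refine isReduced_snoc hred ?_
      intro w'' l' hw'' h1
      by_contra h2
      have h3 := hlast w'' l' hw''
      have h4 : l' = (s, !true) := by
        refine Prod.ext h1 ?_
        cases hb' : l'.2 <;> simp_all
      rw [h4, edge_back, flip_self, he'] at h3
      simp at h3) v (by
      rw [act_append]
      exact hact)
  simp only [List.length_append, List.length_cons, List.length_nil] at h1
  omega

lemma par_false_of_not_mem (e : V × Bool) : ∀ (w : List (Bool × Bool)) (v : V),
    (∀ w1 l w2, w = w1 ++ l :: w2 → edge t l (act t w2 v) ≠ e) → par t w v e = false := by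
  intro w
  induction w with
  | nil => intro v _; rfl
  | cons l w ih =>
    intro v h
    simp only [par]
    rw [flip_ne _ (h [] l w rfl).symm]
    exact ih v fun w1 l' w2 hw => h (l :: w1) l' w2 (by rw [hw]; rfl)

/-- the girth at least doubles -/
lemma gir_cov [Finite V] {g : ℕ} (hg : Gir t g) : Gir (cov t) (g + g) := by
  classical
  intro w hw hred x hx
  obtain ⟨p, v⟩ := x
  rw [act_cov] at hx
  have hxa : act t w v = v := congrArg Prod.snd hx
  have hxp : ∀ e, par t w v e = false := by
    intro e
    have := congrFun (congrArg Prod.fst hx) e
    simp only at this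
    cases hp : p e <;> cases hq : par t w v e <;> simp_all
  have hex : ∃ n, ∃ w1 u w2, w = w1 ++ u ++ w2 ∧ u ≠ [] ∧ u.length = n ∧
      act t u (act t w2 v) = act t w2 v :=
    ⟨w.length, [], w, [], by simp, hw, rfl, by simpa [act] using hxa⟩
  obtain ⟨w1, u, w2, hdec, hu, hlen, hclosed⟩ := Nat.find_spec hex
  have hmin : ∀ w1' u' w2', w = w1' ++ u' ++ w2' → u' ≠ [] →
      act t u' (act t w2' v) = act t w2' v → u.length ≤ u'.length := by
    intro w1' u' w2' h1 h2 h3
    rw [hlen]
    exact Nat.find_min' hex ⟨w1', u', w2', h1, h2, rfl, h3⟩
  set x := act t w2 v with hxdef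
  have hured : FreeGroup.IsReduced u := by
    rw [hdec] at hred
    exact isReduced_mid hred
  obtain ⟨u', l, rfl⟩ : ∃ u' l, u = u' ++ [l] := by
    rcases List.eq_nil_or_concat u with h | ⟨u', l, h⟩
    · exact absurd h hu
    · exact ⟨u', l, by rw [h]; simp⟩
  -- the first edge is traversed exactly once
  have hpar : par t (u' ++ [l]) x (edge t l x) = true := by
    rw [par_append]
    have h1 : par t [l] x (edge t l x) = true := by
      simp [par, act, flip, eqb_self]
    have h2 : par t u' (act t [l] x) (edge t l x) = false := by
      apply par_false_of_not_mem
      intro u1 l' u2 hu' heq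
      have hs : l'.1 = l.1 := congrArg Prod.snd heq
      by_cases hb : l'.2 = l.2
      · have hl : l' = l := Prod.ext hs hb
        rw [hl] at heq
        have h3 := edge_inj t l.1 l.2 _ _ heq
        have h4 := hmin (w1 ++ u1 ++ [l']) (u2 ++ [l]) w2 (by
          rw [hdec, hu']; simp) (by simp) (by
          rw [act_append]
          exact h3)
        rw [hu'] at h4
        simp only [List.length_append, List.length_cons, List.length_nil] at h4
        omega
      · have hl : l' = (l.1, !l.2) := by
          refine Prod.ext hs ?_
          cases h5 : l.2 <;> cases h6 : l'.2 <;> simp_all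
        rw [hl] at heq
        have h3 := edge_opp t l.1 l.2 x _ heq
        by_cases h2 : u2 = []
        · subst h2
          rw [hu'] at hured
          have h4 : FreeGroup.IsReduced [l', l] := by
            apply isReduced_mid (w1 := u1) (w2 := [])
            simpa using hured
          simp only [FreeGroup.IsReduced, List.isChain_cons_cons] at h4
          exact hb (h4.1 hs)
        · have h4 := hmin (w1 ++ u1 ++ [l']) u2 ([l] ++ w2) (by
            rw [hdec, hu']; simp) h2 (by
            rw [act_append, ← hxdef]
            exact h3)
          rw [hu'] at h4
          simp only [List.length_append, List.length_cons, List.length_nil] at h4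
          omega
    rw [h1, h2]
    rfl
  have hbd : ∀ z, bd t (par t (u' ++ [l]) x) z = false := by
    intro z
    rw [bd_par, hclosed]
    cases eqb z x <;> rfl
  have hlarge := even_large t hg _ hbd ⟨_, hpar⟩
  have hc1 := card_par_le t (u' ++ [l]) x
  have hsplit : par t (u' ++ [l]) x =
      fun e => xor (par t w1 (act t ((u' ++ [l]) ++ w2) v) e) (par t w2 v e) := by
    funext e
    have h1 := hxp e
    rw [hdec, List.append_assoc, par_append, par_append, ← hxdef] at h1
    generalize par t w1 (act t (u' ++ [l] ++ w2) v) e = A at *
    generalize par t (u' ++ [l]) x e = B at *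
    generalize par t w2 v e = C at *
    cases A <;> cases B <;> cases C <;> simp_all
  have hc2 : card (par t (u' ++ [l]) x) ≤ w1.length + w2.length := by
    rw [hsplit]
    exact (card_xor_le _ _).trans (add_le_add (card_par_le t _ _) (card_par_le t _ _))
  have hwlen : w.length = w1.length + (u' ++ [l]).length + w2.length := by
    rw [hdec]; simp only [List.length_append]
  omega

end generic

end

end Pool.Agent.Helper461.E2
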