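import Mathlib

set_option autoImplicit false

namespace Pool.Agent.Helper461.E2

open Set Filter Topology

/-- flip the coordinates in `d` -/
def trf (d z : ℕ → Bool) : ℕ → Bool := fun n => xor (z n) (d n)

theorem trf_trf (d z : ℕ → Bool) : trf d (trf d z) = z := by
  funext n
  unfold trf
  rw [Bool.xor_assoc, Bool.xor_self, Bool.xor_false]

theorem continuous_trf (d : ℕ → Bool) : Continuous (trf d) := by
  refine continuous_pi fun n => ?_
  unfold trf
  exact (continuous_of_discreteTopology (f := fun b : Bool => xor b (d n))).comp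
    (continuous_apply n)

/-- translation as a homeomorphism -/
def tr (d : ℕ → Bool) : (ℕ → Bool) ≃ₜ (ℕ → Bool) where
  toFun := trf d
  invFun := trf d
  left_inv := trf_trf d
  right_inv := trf_trf d
  continuous_toFun := continuous_trf d
  continuous_invFun := continuous_trf d

theorem ev_tr (d : ℕ → Bool) {P : (ℕ → Bool) → Prop} (h : ∀ᶠ z in residual (ℕ → Bool), P z) :
    ∀ᶠ z in residual (ℕ → Bool), P (trf d z) :=
  (tendsto_residual_of_isOpenMap (continuous_trf d) (tr d).isOpenMap).eventually h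

/-- unit vector -/
def dl (n : ℕ) : ℕ → Bool := fun k => decide (k = n)

/-- cylinder -/
def cyl (x : ℕ → Bool) (m : ℕ) : Set (ℕ → Bool) := {z | ∀ i < m, z i = x i}

theorem isOpen_cyl (x : ℕ → Bool) (m : ℕ) : IsOpen (cyl x m) := by
  have : cyl x m = ⋂ i ∈ Finset.range m, {z : ℕ → Bool | z i = x i} := by
    ext z
    simp [cyl]
  rw [this]
  refine isOpen_biInter_finset fun i _ => ?_
  exact (isOpen_discrete ({x i} : Set Bool)).preimage (continuous_apply (A := fun _ : ℕ => Bool) i)

theorem mem_cyl_self (x : ℕ → Bool) (m : ℕ) : x ∈ cyl x m := fun _ _ => rfl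

theorem cyl_anti (x : ℕ → Bool) {m n : ℕ} (h : m ≤ n) : cyl x n ⊆ cyl x m :=
  fun _ hz i hi => hz i (lt_of_lt_of_le hi h)

theorem exists_cyl {U : Set (ℕ → Bool)} (hU : IsOpen U) {x : ℕ → Bool} (hx : x ∈ U) :
    ∃ m, cyl x m ⊆ U := by
  obtain ⟨I, u, hu, hsub⟩ := isOpen_pi_iff.mp hU x hx
  refine ⟨I.sup id + 1, fun z hz => hsub ?_⟩
  intro i hi
  have h1 : i ≤ I.sup id := Finset.le_sup (f := id) hi
  rw [hz i (by omega)]
  exact (hu i hi).2

theorem trf_mem_cyl {d x z : ℕ → Bool} {m : ℕ} (hd : ∀ k < m, d k = false) (hz : z ∈ cyl x m) :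
    trf d z ∈ cyl x m := by
  intro i hi
  unfold trf
  rw [hd i hi, Bool.xor_false]
  exact hz i hi

theorem exists_of_residual {P : (ℕ → Bool) → Prop} (h : ∀ᶠ z in residual (ℕ → Bool), P z)
    {U : Set (ℕ → Bool)} (hU : IsOpen U) (hne : U.Nonempty) : ∃ z ∈ U, P z := by
  have hd : Dense {z | P z} := dense_of_mem_residual h
  obtain ⟨z, hz1, hz2⟩ := hd.inter_open_nonempty U hU hne
  exact ⟨z, hz1, hz2⟩

theorem open_approx {A : Set (ℕ → Bool)} (hA : MeasurableSet A) :
    ∃ U : Set (ℕ → Bool), IsOpen U ∧ ∀ᶠ z in residual (ℕ → Bool), (z ∈ A ↔ z ∈ U) := by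
  obtain ⟨U, hU, hAU⟩ := hA.residualEq_isOpen
  refine ⟨U, hU, ?_⟩
  filter_upwards [hAU] with z hz
  exact iff_of_eq hz

theorem flips (G : (ℕ → Bool) → ℝ) (x0 : ℕ → Bool) (N1 : ℕ)
    (h : ∀ᶠ z in residual (ℕ → Bool), ∀ n ≥ N1, z ∈ cyl x0 N1 → G (trf (dl n) z) = G z) (M : ℕ) :
    ∀ d : ℕ → Bool, (∀ k < N1, d k = false) → (∀ k ≥ M, d k = false) →
      ∀ᶠ z in residual (ℕ → Bool), z ∈ cyl x0 N1 → G (trf d z) = G z := by
  induction M with
  | zero =>
    intro d _ hd
    refine Eventually.of_forall fun z _ => ?_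
    have : trf d z = z := by
      funext n
      unfold trf
      rw [hd n (Nat.zero_le _), Bool.xor_false]
    rw [this]
  | succ M ih =>
    intro d hd1 hd2
    by_cases hM : d M = false
    · refine ih d hd1 fun k hk => ?_
      rcases eq_or_lt_of_le hk with h1 | h1
      · rw [← h1]; exact hM
      · exact hd2 k h1
    · have hMN : N1 ≤ M := by
        by_contra hcon
        exact hM (hd1 M (by omega))
      have hMt : d M = true := by simpa using hM
      set d' := Function.update d M false with hd'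
      have e1 : ∀ k < N1, d' k = false := by
        intro k hk
        rw [hd', Function.update_of_ne (by omega)]
        exact hd1 k hk
      have e2 : ∀ k ≥ M, d' k = false := by
        intro k hk
        by_cases hkM : k = M
        · rw [hkM, hd', Function.update_self]
        · rw [hd', Function.update_of_ne hkM]
          exact hd2 k (by omega)
      have e3 : ∀ z, trf d z = trf (dl M) (trf d' z) := by
        intro z
        funext n
        unfold trf dl
        by_cases hn : n = M
        · rw [hn, hMt, hd', Function.update_self]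
          simp
        · rw [hd', Function.update_of_ne hn]
          simp [hn]
      filter_upwards [ih d' e1 e2, ev_tr d' h] with z hz1 hz2 hz
      rw [e3, hz2 M hMN (trf_mem_cyl e1 hz), hz1 hz]

/-- zero-one law and constancy -/
theorem constant (G : (ℕ → Bool) → ℝ) (hG : Measurable G) (x0 : ℕ → Bool) (N1 : ℕ)
    (h : ∀ᶠ z in residual (ℕ → Bool), ∀ n ≥ N1, z ∈ cyl x0 N1 → G (trf (dl n) z) = G z) :
    ∃ a : ℝ, ∀ᶠ z in residual (ℕ → Bool), z ∈ cyl x0 N1 → G z = a := by
  have key : ∀ V : Set ℝ, MeasurableSet V →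
      (∀ᶠ z in (residual (ℕ → Bool) ⊓ 𝓟 (cyl x0 N1)), G z ∈ V) ∨
      (∀ᶠ z in (residual (ℕ → Bool) ⊓ 𝓟 (cyl x0 N1)), G z ∉ V) := by
    intro V hV
    obtain ⟨U, hU, hUe⟩ := open_approx (hG hV)
    obtain ⟨U', hU', hUe'⟩ := open_approx (hG hV).compl
    rw [eventually_inf_principal, eventually_inf_principal]
    by_cases hne : (U ∩ cyl x0 N1).Nonempty
    · by_cases hne' : (U' ∩ cyl x0 N1).Nonempty
      · exfalso
        obtain ⟨p, hpU, hps⟩ := hne
        obtain ⟨q, hqU, hqs⟩ := hne'
        obtain ⟨M1, hM1⟩ := exists_cyl hU hpU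
        obtain ⟨M2, hM2⟩ := exists_cyl hU' hqU
        set M := max M1 M2 with hM
        have hpM : cyl p M ⊆ U := (cyl_anti p (le_max_left _ _)).trans hM1
        have hqM : cyl q M ⊆ U' := (cyl_anti q (le_max_right _ _)).trans hM2
        set d : ℕ → Bool := fun k => if k < M then xor (p k) (q k) else false with hd
        have hd1 : ∀ k < N1, d k = false := by
          intro k hk
          rw [hd]
          simp only
          split_ifs
          · rw [hps k hk, hqs k hk, Bool.xor_self]
          · rfl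
        have hd2 : ∀ k ≥ M, d k = false := by
          intro k hk
          rw [hd]
          simp only
          rw [if_neg (by omega)]
        have hfl := flips G x0 N1 h M d hd1 hd2
        obtain ⟨z, ⟨hz1, hz2⟩, hz3, hz4, hz5⟩ := exists_of_residual
          (hfl.and (hUe.and (ev_tr d hUe'))) ((isOpen_cyl p M).inter (isOpen_cyl x0 N1))
          ⟨p, mem_cyl_self p M, hps⟩
        have hzB : G z ∈ V := hz4.mpr (hpM hz1)
        have hzq : trf d z ∈ cyl q M := by
          intro i hi
          unfold trf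
          rw [hz1 i hi, hd]
          simp only
          rw [if_pos hi, ← Bool.xor_assoc, Bool.xor_self, Bool.false_xor]
        have hzB' : trf d z ∈ (G ⁻¹' V)ᶜ := hz5.mpr (hqM hzq)
        apply hzB'
        change G (trf d z) ∈ V
        rw [hz3 hz2]
        exact hzB
      · left
        filter_upwards [hUe'] with z hz hzs
        by_contra hcon
        exact hne' ⟨z, hz.mp hcon, hzs⟩
    · right
      filter_upwards [hUe] with z hz hzs hcon
      exact hne ⟨z, hz.mp hcon, hzs⟩
  obtain ⟨a, ha⟩ := Filter.exists_eventuallyEq_const_of_forall_separating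
    (l := residual (ℕ → Bool) ⊓ 𝓟 (cyl x0 N1)) (f := G) MeasurableSet key
  refine ⟨a, ?_⟩
  have h1 : ∀ᶠ z in (residual (ℕ → Bool) ⊓ 𝓟 (cyl x0 N1)), G z = a := ha
  rwa [eventually_inf_principal] at h1

/-- the relation -/
def RR (a b : ℕ → Bool) : Prop :=
  Summable (fun n : ℕ => if a n = b n then (0 : ℝ) else (1 : ℝ) / ((n : ℝ) + 1))

theorem caseB (G : (ℕ → Bool) → ℝ) (hG : Measurable G) (hinj : ∀ a b, G a = G b → RR a b)
    (x0 : ℕ → Bool) (N1 : ℕ)
    (h : ∀ᶠ z in residual (ℕ → Bool), ∀ n ≥ N1, z ∈ cyl x0 N1 → G (trf (dl n) z) = G z) :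
    False := by
  obtain ⟨a, ha⟩ := constant G hG x0 N1 h
  set d : ℕ → Bool := fun k => decide (N1 ≤ k) with hd
  have hd1 : ∀ k < N1, d k = false := by
    intro k hk
    rw [hd]
    simp only
    rw [decide_eq_false]
    omega
  obtain ⟨z, hz, hz1, hz2⟩ := exists_of_residual (ha.and (ev_tr d ha)) (isOpen_cyl x0 N1)
    ⟨x0, mem_cyl_self _ _⟩
  have h1 : RR z (trf d z) := hinj _ _ (by rw [hz1 hz, hz2 (trf_mem_cyl hd1 hz)])
  unfold RR at h1
  rw [← summable_nat_add_iff N1] at h1
  have h2 : (fun n : ℕ => if z (n + N1) = trf d z (n + N1) then (0 : ℝ) else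
      (1 : ℝ) / (((n + N1 : ℕ) : ℝ) + 1)) = fun n : ℕ => 1 / (((n + N1 + 1 : ℕ) : ℝ)) := by
    funext n
    have h3 : ¬ (z (n + N1) = trf d z (n + N1)) := by
      unfold trf
      rw [hd]
      simp
    rw [if_neg h3]
    push_cast
    ring
  rw [h2] at h1
  have h3 : Summable (fun n : ℕ => 1 / ((n : ℕ) : ℝ)) :=
    (summable_nat_add_iff (f := fun n : ℕ => 1 / ((n : ℕ) : ℝ)) (N1 + 1)).mp h1
  exact Real.not_summable_one_div_natCast h3

/-- Kuratowski-Ulam for translations -/
theorem ku (emb : (ℕ → Bool) → (ℕ → Bool)) (hemb : Continuous emb) {P : (ℕ → Bool) → Prop}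
    (h : ∀ᶠ z in residual (ℕ → Bool), P z) :
    ∃ x, ∀ᶠ S in residual (ℕ → Bool), P (trf (emb S) x) := by
  have hcont : ∀ x, Continuous fun S => trf (emb S) x := by
    intro x
    refine continuous_pi fun n => ?_
    unfold trf
    exact (continuous_of_discreteTopology (f := fun b : Bool => xor (x n) b)).comp
      ((continuous_apply n).comp hemb)
  obtain ⟨T, hTo, hTd, hTc, hTsub⟩ := mem_residual_iff.mp h
  obtain ⟨b, hbc, hbe, hb⟩ := TopologicalSpace.exists_countable_basis (ℕ → Bool)
  have hA : ∀ t ∈ T, ∀ o ∈ b, {x : ℕ → Bool | ∃ S ∈ o, trf (emb S) x ∈ t} ∈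
      residual (ℕ → Bool) := by
    intro t ht o ho
    apply residual_of_dense_open
    · have : {x : ℕ → Bool | ∃ S ∈ o, trf (emb S) x ∈ t} =
          ⋃ S ∈ o, (trf (emb S)) ⁻¹' t := by
        ext x
        simp
      rw [this]
      exact isOpen_biUnion fun S _ => (hTo t ht).preimage (continuous_trf _)
    · have hone : o.Nonempty := by
        rw [nonempty_iff_ne_empty]
        rintro rfl
        exact hbe ho
      obtain ⟨S, hS⟩ := hone
      have hd : Dense ((trf (emb S)) ⁻¹' t) := (hTd t ht).preimage (tr (emb S)).isOpenMap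
      exact hd.mono fun x hx => ⟨S, hS, hx⟩
  have hall : ∀ᶠ x in residual (ℕ → Bool), ∀ t ∈ T, ∀ o ∈ b, ∃ S ∈ o, trf (emb S) x ∈ t := by
    rw [eventually_countable_ball hTc]
    intro t ht
    rw [eventually_countable_ball hbc]
    intro o ho
    exact hA t ht o ho
  obtain ⟨x, -, hx⟩ := exists_of_residual hall isOpen_univ univ_nonempty
  refine ⟨x, ?_⟩
  have h2 : ∀ᶠ S in residual (ℕ → Bool), ∀ t ∈ T, trf (emb S) x ∈ t := by
    rw [eventually_countable_ball hTc]
    intro t ht
    apply residual_of_dense_open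
    · exact (hTo t ht).preimage (hcont x)
    · rw [hb.dense_iff]
      intro o ho _
      obtain ⟨S, hS, hSt⟩ := hx t ht o ho
      exact ⟨S, hS, hSt⟩
  filter_upwards [h2] with S hS
  exact hTsub (mem_sInter.mpr hS)

theorem exists_seq (U : ℕ → Set (ℕ → Bool))
    (h : ∀ s : Set (ℕ → Bool), IsOpen s → s.Nonempty → ∀ N, ∃ n ≥ N, (U n ∩ s).Nonempty) :
    ∃ a : ℕ → ℕ, StrictMono a ∧ (∀ i, 2 ^ i ≤ a i) ∧
      ∀ m, ∀ s : Set (ℕ → Bool), IsOpen s → s.Nonempty → ∃ i ≥ m, (U (a i) ∩ s).Nonempty := by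
  obtain ⟨b, hbc, hbe, hb⟩ := TopologicalSpace.exists_countable_basis (ℕ → Bool)
  have hbne : b.Nonempty := by
    obtain ⟨o, ho, -⟩ := hb.exists_subset_of_mem_open (mem_univ (fun _ : ℕ => true)) isOpen_univ
    exact ⟨o, ho⟩
  obtain ⟨e, he⟩ := hbc.exists_eq_range hbne
  have heo : ∀ j, IsOpen (e j) := fun j => hb.isOpen (by rw [he]; exact mem_range_self j)
  have hene : ∀ j, (e j).Nonempty := by
    intro j
    rw [nonempty_iff_ne_empty]
    intro h0
    apply hbe
    rw [he, ← h0]
    exact mem_range_self j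
  choose F hF1 hF2 using fun (i : ℕ) (N : ℕ) =>
    h (e (Nat.unpair i).1) (heo _) (hene _) N
  let a : ℕ → ℕ := fun i => Nat.rec (F 0 1) (fun i ai => F (i + 1) (max (2 ^ (i + 1)) (ai + 1))) i
  have ha0 : a 0 = F 0 1 := rfl
  have has : ∀ i, a (i + 1) = F (i + 1) (max (2 ^ (i + 1)) (a i + 1)) := fun i => rfl
  refine ⟨a, ?_, ?_, ?_⟩
  · refine strictMono_nat_of_lt_succ fun i => ?_
    rw [has]
    have := hF1 (i + 1) (max (2 ^ (i + 1)) (a i + 1))
    have h2 := le_max_right (2 ^ (i + 1)) (a i + 1)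
    omega
  · intro i
    cases i with
    | zero => rw [ha0]; exact hF1 0 1
    | succ i =>
      rw [has]
      exact le_trans (le_max_left _ _) (hF1 _ _)
  · intro m s hs hsne
    obtain ⟨x, hx⟩ := hsne
    obtain ⟨o, ho, hxo, hos⟩ := hb.exists_subset_of_mem_open hx hs
    rw [he] at ho
    obtain ⟨j, rfl⟩ := ho
    refine ⟨Nat.pair j m, Nat.right_le_pair j m, ?_⟩
    have h1 : (U (a (Nat.pair j m)) ∩ e (Nat.unpair (Nat.pair j m)).1).Nonempty := by
      rcases Nat.eq_zero_or_pos (Nat.pair j m) with h0 | h0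
      · rw [h0, ha0]; exact hF2 0 1
      · obtain ⟨k, hk⟩ : ∃ k, Nat.pair j m = k + 1 := ⟨Nat.pair j m - 1, by omega⟩
        rw [hk, has]; exact hF2 _ _
    rw [Nat.unpair_pair] at h1
    exact h1.mono (inter_subset_inter_right _ hos)

theorem caseA (G : (ℕ → Bool) → ℝ) (hG : Measurable G)
    (hcount : ∀ a, {r | ∃ b, RR a b ∧ r = G b}.Countable)
    (U : ℕ → Set (ℕ → Bool)) (hUo : ∀ n, IsOpen (U n))
    (hU : ∀ᶠ z in residual (ℕ → Bool), ∀ n, (G (trf (dl n) z) ≠ G z ↔ z ∈ U n))
    (h : ∀ s : Set (ℕ → Bool), IsOpen s → s.Nonempty → ∀ N, ∃ n ≥ N, (U n ∩ s).Nonempty) :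
    False := by
  classical
  obtain ⟨a, ha, ha2, hdense⟩ := exists_seq U h
  -- the generic set
  have hL : ∀ᶠ z in residual (ℕ → Bool), (∀ n, (G (trf (dl n) z) ≠ G z ↔ z ∈ U n)) ∧
      ∀ m, ∃ i ≥ m, z ∈ U (a i) := by
    refine hU.and ?_
    rw [eventually_countable_forall]
    intro m
    apply residual_of_dense_open
    · have : {x : ℕ → Bool | ∃ i ≥ m, x ∈ U (a i)} = ⋃ i, ⋃ (_ : i ≥ m), U (a i) := by
        ext x
        simp
      rw [this]
      exact isOpen_iUnion fun i => isOpen_iUnion fun _ => hUo _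
    · rw [dense_iff_inter_open]
      intro s hs hsne
      obtain ⟨i, him, z, hz1, hz2⟩ := hdense m s hs hsne
      exact ⟨z, hz2, i, him, hz1⟩
  -- embedding
  let emb : (ℕ → Bool) → (ℕ → Bool) := fun S n =>
    if h : ∃ i, a i = n then S h.choose else false
  have hemb1 : ∀ S i, emb S (a i) = S i := by
    intro S i
    have hex : ∃ j, a j = a i := ⟨i, rfl⟩
    change (if h : ∃ j, a j = a i then S h.choose else false) = S i
    rw [dif_pos hex]
    congr 1
    exact ha.injective hex.choose_spec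
  have hemb2 : ∀ S n, (¬ ∃ i, a i = n) → emb S n = false := by
    intro S n hn
    change (if h : ∃ j, a j = n then S h.choose else false) = false
    rw [dif_neg hn]
  have hembc : Continuous emb := by
    refine continuous_pi fun n => ?_
    by_cases hn : ∃ i, a i = n
    · obtain ⟨i, rfl⟩ := hn
      have : (fun S : ℕ → Bool => emb S (a i)) = fun S => S i := by
        funext S; exact hemb1 S i
      rw [this]
      exact continuous_apply i
    · have : (fun S : ℕ → Bool => emb S n) = fun _ => false := by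
        funext S; exact hemb2 S n hn
      rw [this]
      exact continuous_const
  obtain ⟨x, hx⟩ := ku emb hembc hL
  -- related
  have hrel : ∀ S, RR x (trf (emb S) x) := by
    intro S
    unfold RR
    have hsupp : ∀ n, n ∉ range a →
        (if x n = trf (emb S) x n then (0 : ℝ) else (1 : ℝ) / ((n : ℝ) + 1)) = 0 := by
      intro n hn
      have : x n = trf (emb S) x n := by
        unfold trf
        rw [hemb2 S n hn, Bool.xor_false]
      rw [if_pos this]
    rw [← ha.injective.summable_iff hsupp]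
    refine Summable.of_nonneg_of_le (fun i => ?_) (fun i => ?_) summable_geometric_two
    · simp only [Function.comp]
      split_ifs
      · exact le_rfl
      · positivity
    · simp only [Function.comp]
      have h1 : ((2:ℝ)) ^ i ≤ (a i : ℝ) + 1 := by
        have : ((2:ℝ)) ^ i ≤ (a i : ℝ) := by exact_mod_cast ha2 i
        linarith
      split_ifs
      · positivity
      · rw [one_div_pow]
        exact one_div_le_one_div_of_le (by positivity) h1
  -- countably many values
  have hcx := hcount x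
  have hmeas : Measurable fun S => G (trf (emb S) x) := by
    refine hG.comp ?_
    have hcont : Continuous fun S => trf (emb S) x := by
      refine continuous_pi fun n => ?_
      unfold trf
      exact (continuous_of_discreteTopology (f := fun b : Bool => xor (x n) b)).comp
        ((continuous_apply n).comp hembc)
    exact hcont.measurable
  obtain ⟨r, hr⟩ : ∃ r : ℝ, ¬ (∀ᶠ S in residual (ℕ → Bool), G (trf (emb S) x) ≠ r) := by
    by_contra hcon
    push Not at hcon
    have h1 : ∀ᶠ S in residual (ℕ → Bool), ∀ r ∈ {r | ∃ b, RR x b ∧ r = G b},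
        G (trf (emb S) x) ≠ r := by
      rw [eventually_countable_ball hcx]
      intro r _
      exact hcon r
    obtain ⟨S, -, hS⟩ := exists_of_residual h1 isOpen_univ univ_nonempty
    exact hS (G (trf (emb S) x)) ⟨_, hrel S, rfl⟩ rfl
  obtain ⟨V, hVo, hV⟩ := open_approx (A := {S | G (trf (emb S) x) = r})
    (hmeas (measurableSet_singleton r))
  have hVne : V.Nonempty := by
    by_contra hcon
    rw [not_nonempty_iff_eq_empty] at hcon
    apply hr
    filter_upwards [hV] with S hS hSr
    have := hS.mp hSr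
    rw [hcon] at this
    exact this
  obtain ⟨p, hp⟩ := hVne
  obtain ⟨m, hm⟩ := exists_cyl hVo hp
  have hVf : ∀ᶠ S in residual (ℕ → Bool), ∀ i,
      (trf (dl i) S ∈ {S | G (trf (emb S) x) = r} ↔ trf (dl i) S ∈ V) := by
    rw [eventually_countable_forall]
    intro i
    exact ev_tr (dl i) hV
  obtain ⟨S, hSc, ⟨hS1, hS2⟩, hS3⟩ := exists_of_residual ((hV.and hVf).and hx) (isOpen_cyl p m)
    ⟨p, mem_cyl_self p m⟩
  obtain ⟨hS4, hS5⟩ := hS3
  obtain ⟨i, him, hi⟩ := hS5 m
  have hne := (hS4 (a i)).mpr hi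
  apply hne
  have e1 : trf (dl (a i)) (trf (emb S) x) = trf (emb (trf (dl i) S)) x := by
    funext n
    by_cases hn : ∃ j, a j = n
    · obtain ⟨j, rfl⟩ := hn
      change xor (xor (x (a j)) (emb S (a j))) (decide (a j = a i)) =
        xor (x (a j)) (emb (trf (dl i) S) (a j))
      rw [hemb1, hemb1]
      unfold trf dl
      rw [Bool.xor_assoc]
      congr 2
      rw [decide_eq_decide]
      exact ha.injective.eq_iff
    · change xor (xor (x n) (emb S n)) (decide (n = a i)) =
        xor (x n) (emb (trf (dl i) S) n)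
      rw [hemb2 _ _ hn, hemb2 _ _ hn]
      have : ¬ (n = a i) := fun h0 => hn ⟨i, h0.symm⟩
      simp [this]
  have e2 : G (trf (emb (trf (dl i) S)) x) = r := by
    have h1 : trf (dl i) S ∈ cyl p m := by
      refine trf_mem_cyl ?_ hSc
      intro k hk
      unfold dl
      rw [decide_eq_false]
      omega
    exact (hS2 i).mpr (hm h1)
  have e3 : G (trf (emb S) x) = r := hS1.mpr (hm hSc)
  rw [e1, e2, e3]

/-- the summable (harmonic) equivalence relation is not Borel reducible to a relation with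
countable classes -/
theorem e2_not_countable {Y : Type} [MeasurableSpace Y] [StandardBorelSpace Y]
    (E : Y → Y → Prop) (hE : ∀ y, {z | E y z}.Countable) :
    ¬ ∃ g : (ℕ → Bool) → Y, Measurable g ∧ ∀ a b : ℕ → Bool,
      (Summable (fun n : ℕ => if a n = b n then (0 : ℝ) else (1 : ℝ) / ((n : ℝ) + 1))
        ↔ E (g a) (g b)) := by
  rintro ⟨g, hg, hgE⟩
  obtain ⟨φ, hφ⟩ := MeasureTheory.exists_measurableEmbedding_real Y
  set G : (ℕ → Bool) → ℝ := fun z => φ (g z) with hGdef
  have hG : Measurable G := hφ.measurable.comp hg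
  have hself : ∀ a, RR a a := by
    intro a
    unfold RR
    simp only [if_true]
    exact summable_zero
  have hinj : ∀ a b, G a = G b → RR a b := by
    intro a b hab
    have h1 : g a = g b := hφ.injective hab
    have h2 : E (g a) (g a) := (hgE a a).mp (hself a)
    rw [h1] at h2
    unfold RR
    rw [hgE a b, h1]
    exact h2
  have hcount : ∀ a, {r | ∃ b, RR a b ∧ r = G b}.Countable := by
    intro a
    refine ((hE (g a)).image φ).mono ?_
    rintro r ⟨b, hb, rfl⟩
    exact ⟨g b, (hgE a b).mp hb, rfl⟩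
  have hW : ∀ n, MeasurableSet {z | G (trf (dl n) z) ≠ G z} := by
    intro n
    have h1 : Measurable fun z => G (trf (dl n) z) := hG.comp (continuous_trf _).measurable
    exact (measurableSet_eq_fun h1 hG).compl
  choose U hUo hU using fun n => open_approx (hW n)
  have hUall : ∀ᶠ z in residual (ℕ → Bool), ∀ n, (G (trf (dl n) z) ≠ G z ↔ z ∈ U n) := by
    rw [eventually_countable_forall]
    exact hU
  by_cases hcase : ∃ s : Set (ℕ → Bool), IsOpen s ∧ s.Nonempty ∧ ∃ N, ∀ n ≥ N, ¬ (U n ∩ s).Nonempty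
  · obtain ⟨s, hso, ⟨x0, hx0⟩, N, hN⟩ := hcase
    obtain ⟨m, hm⟩ := exists_cyl hso hx0
    refine caseB G hG hinj x0 (max m N) ?_
    filter_upwards [hUall] with z hz n hn hzc
    by_contra hcon
    refine hN n (le_trans (le_max_right _ _) hn) ⟨z, (hz n).mp hcon, hm ?_⟩
    exact cyl_anti x0 (le_max_left _ _) hzc
  · push Not at hcase
    refine caseA G hG hcount U hUo hUall ?_
    intro s hs hsne N
    obtain ⟨n, hn, h1⟩ := hcase s hs hsne N
    exact ⟨n, hn, h1⟩

end Pool.Agent.Helper461.E2
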