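import Mathlib

set_option autoImplicit false

open MeasureTheory

namespace Pool.Agent.Helper461.E2

open scoped ENNReal ProbabilityTheory

/-- images of `x` under the group elements whose letter applied first is `l` -/
def j978Br {Y : Type} (T : Bool → Equiv.Perm Y) (l : Bool × Bool) (x : Y) : Set Y :=
  {y | ∃ γ : FreeGroup Bool, γ.toWord.getLast? = some l ∧ FreeGroup.lift T γ x = y}

theorem j978_lift_meas {Y : Type} [MeasurableSpace Y] (T : Bool → Equiv.Perm Y)
    (hT : ∀ s, Measurable (T s)) (hTi : ∀ s, Measurable (T s).symm) (γ : FreeGroup Bool) :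
    Measurable (FreeGroup.lift T γ) := by
  induction γ using FreeGroup.induction_on with
  | C1 => simpa using measurable_id
  | of s => simpa using hT s
  | inv_of s _ =>
    rw [map_inv, FreeGroup.lift_apply_of]
    exact hTi s
  | mul a b ha hb =>
    rw [map_mul]
    exact ha.comp hb

theorem j978_Br_meas {Y : Type} [MeasurableSpace Y] [StandardBorelSpace Y]
    (T : Bool → Equiv.Perm Y)
    (hT : ∀ s, Measurable (T s)) (hTi : ∀ s, Measurable (T s).symm) (l : Bool × Bool) :
    MeasurableSet {p : Y × Y | p.2 ∈ j978Br T l p.1} := by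
  have : {p : Y × Y | p.2 ∈ j978Br T l p.1} =
      ⋃ γ : FreeGroup Bool, ⋃ _ : γ.toWord.getLast? = some l,
        {p : Y × Y | FreeGroup.lift T γ p.1 = p.2} := by
    ext p
    simp [j978Br]
  rw [this]
  have hc : Countable (FreeGroup Bool) := inferInstance
  refine MeasurableSet.iUnion fun γ => MeasurableSet.iUnion fun _ => ?_
  exact measurableSet_eq_fun ((j978_lift_meas T hT hTi γ).comp measurable_fst) measurable_snd

theorem j978_Br_disj {Y : Type} (T : Bool → Equiv.Perm Y)
    (hfree : ∀ (γ : FreeGroup Bool) (x : Y), FreeGroup.lift T γ x = x → γ = 1) (x : Y) :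
    Pairwise (fun l l' => Disjoint (j978Br T l x) (j978Br T l' x)) := by
  intro l l' hne
  rw [Set.disjoint_left]
  rintro y ⟨γ, h1, h2⟩ ⟨γ', h1', h2'⟩
  apply hne
  have h3 : FreeGroup.lift T (γ'⁻¹ * γ) x = x := by
    rw [map_mul, map_inv, Equiv.Perm.mul_apply, h2, ← h2', Equiv.Perm.inv_def, Equiv.symm_apply_apply]
  have h4 := hfree _ _ h3
  have h5 : γ = γ' := by
    rwa [inv_mul_eq_one, eq_comm] at h4
  rw [h5, h1'] at h1
  exact (Option.some.inj h1).symm

theorem j978_cover {Y : Type} (T : Bool → Equiv.Perm Y) (s : Bool) (x z : Y)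
    (h : ∃ γ : FreeGroup Bool, FreeGroup.lift T γ x = z) :
    z ∈ j978Br T (s, true) x ∪ j978Br T (s, false) (T s x) := by
  obtain ⟨γ, hγ⟩ := h
  by_cases hl : γ.toWord.getLast? = some (s, true)
  · exact Or.inl ⟨γ, hl, hγ⟩
  · right
    refine ⟨γ * (FreeGroup.of s)⁻¹, ?_, ?_⟩
    · have h1 : γ * (FreeGroup.of s)⁻¹ = FreeGroup.mk (γ.toWord ++ [(s, false)]) := by
        rw [← FreeGroup.mul_mk, FreeGroup.mk_toWord]
        rfl
      have h2 : FreeGroup.IsReduced (γ.toWord ++ [(s, false)]) := by
        apply List.IsChain.append FreeGroup.isReduced_toWord (by simp)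
        intro a ha b hb hab
        simp only [List.head?_cons, Option.mem_def, Option.some.injEq] at hb
        subst hb
        simp only at hab ⊢
        by_contra hc
        apply hl
        have hc' : a.2 = true := by simpa using hc
        rw [Option.mem_def] at ha
        rw [ha]
        congr 1
        exact Prod.ext hab hc'
      rw [h1, FreeGroup.toWord_mk, h2.reduce_eq]
      simp
    · rw [map_mul, map_inv, FreeGroup.lift_apply_of, Equiv.Perm.mul_apply,
        Equiv.Perm.inv_def, Equiv.symm_apply_apply, hγ]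

/-- a free measure preserving action of the free group of rank two is not reducible to
eventual equality -/
theorem free_not_E0 {Y : Type} [MeasurableSpace Y] [StandardBorelSpace Y] (μ : Measure Y)
    [IsProbabilityMeasure μ] (T : Bool → Equiv.Perm Y) (hT : ∀ s, MeasurePreserving (T s) μ μ)
    (hTi : ∀ s, Measurable (T s).symm)
    (hfree : ∀ (γ : FreeGroup Bool) (x : Y), FreeGroup.lift T γ x = x → γ = 1) :
    ¬ ∃ f : Y → (ℕ → Bool), Measurable f ∧ ∀ x y : Y,
      ((∃ γ : FreeGroup Bool, FreeGroup.lift T γ x = y) ↔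
        ∃ N : ℕ, ∀ n : ℕ, N ≤ n → f x n = f y n) := by
  rintro ⟨f, hf, hfe⟩
  have hTm : ∀ s, Measurable (T s) := fun s => (hT s).measurable
  -- tails
  set tau : ℕ → Y → (ℕ → Bool) := fun n x m => f x (m + n) with htau
  have htm : ∀ n, Measurable (tau n) := by
    intro n
    rw [measurable_pi_iff]
    intro m
    exact (measurable_pi_apply (m + n)).comp hf
  have htail : ∀ n x y, tau n x = tau n y → ∃ γ : FreeGroup Bool, FreeGroup.lift T γ x = y := by
    intro n x y h
    rw [hfe]
    refine ⟨n, fun k hk => ?_⟩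
    have := congrFun h (k - n)
    simp only [htau] at this
    rwa [Nat.sub_add_cancel hk] at this
  let A : ℕ → Bool → Set Y := fun n s => {x | tau n x = tau n (T s x)}
  have hAm : ∀ n s, MeasurableSet (A n s) := fun n s =>
    measurableSet_eq_fun (htm n) ((htm n).comp (hTm s))
  have hAmono : ∀ s, Monotone (fun n => A n s) := by
    intro s m n hmn x hx
    funext k
    have := congrFun hx (k + (n - m))
    simp only [htau] at this ⊢
    rwa [show k + (n - m) + m = k + n by omega] at this
  have hAun : ∀ s, (⋃ n, A n s) = Set.univ := by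
    intro s
    rw [Set.eq_univ_iff_forall]
    intro x
    obtain ⟨N, hN⟩ := (hfe x (T s x)).1 ⟨FreeGroup.of s, by rw [FreeGroup.lift_apply_of]⟩
    rw [Set.mem_iUnion]
    exact ⟨N, funext fun k => hN _ (Nat.le_add_left _ _)⟩
  have hlim : ∀ s, Filter.Tendsto (fun n => μ (A n s)) Filter.atTop (nhds 1) := by
    intro s
    have := tendsto_measure_iUnion_atTop (μ := μ) (hAmono s)
    rw [hAun s, measure_univ] at this
    exact this
  obtain ⟨n, hn⟩ : ∃ n, 1 < μ (A n false) + μ (A n true) := by
    have h2 := (hlim false).add (hlim true)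
    have h3 : (1 : ℝ≥0∞) < 1 + 1 := by norm_num
    exact (h2.eventually (lt_mem_nhds h3)).exists
  -- the conditional distribution
  have : Nonempty Y := μ.nonempty_of_neZero
  let κ : ProbabilityTheory.Kernel (ℕ → Bool) Y := ProbabilityTheory.condDistrib id (tau n) μ
  let lam : ProbabilityTheory.Kernel Y Y := κ.comap (tau n) (htm n)
  have hlam : ∀ x, lam x = κ (tau n x) := fun x => rfl
  have hcomp : (μ.map (tau n)) ⊗ₘ κ = μ.map (fun x => (tau n x, id x)) :=
    ProbabilityTheory.compProd_map_condDistrib aemeasurable_id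
  have hfib : ∀ᵐ x ∂μ, lam x {y | tau n y ≠ tau n x} = 0 := by
    have hSm : MeasurableSet {p : (ℕ → Bool) × Y | tau n p.2 ≠ p.1} :=
      (measurableSet_eq_fun ((htm n).comp measurable_snd) measurable_fst).compl
    have h1 : ((μ.map (tau n)) ⊗ₘ κ) {p : (ℕ → Bool) × Y | tau n p.2 ≠ p.1} = 0 := by
      rw [hcomp, Measure.map_apply ((htm n).prodMk measurable_id) hSm]
      simp
    rw [Measure.compProd_apply hSm,
      lintegral_eq_zero_iff (ProbabilityTheory.Kernel.measurable_kernel_prodMk_left hSm)] at h1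
    have h2 := ae_of_ae_map (htm n).aemeasurable h1
    filter_upwards [h2] with x hx
    exact hx
  let M : Bool × Bool → Y → ℝ≥0∞ := fun l x => lam x (j978Br T l x)
  have hMm : ∀ l, Measurable (M l) := fun l =>
    ProbabilityTheory.Kernel.measurable_kernel_prodMk_left (κ := lam) (j978_Br_meas T hTm hTi l)
  have hBm : ∀ l x, MeasurableSet (j978Br T l x) := fun l x =>
    measurable_prodMk_left (x := x) (j978_Br_meas T hTm hTi l)
  have hsum : ∀ x, ∑ l : Bool × Bool, M l x ≤ 1 := by
    intro x
    have h1 : lam x (⋃ l, j978Br T l x) = ∑ l : Bool × Bool, M l x := by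
      rw [measure_iUnion (j978_Br_disj T hfree x) (fun l => hBm l x), tsum_fintype]
    rw [← h1]
    exact prob_le_one
  have hint : ∑ l : Bool × Bool, ∫⁻ x, M l x ∂μ ≤ 1 := by
    rw [← lintegral_finsetSum _ (fun l _ => hMm l)]
    calc ∫⁻ x, ∑ l : Bool × Bool, M l x ∂μ ≤ ∫⁻ _, 1 ∂μ := lintegral_mono hsum
      _ = 1 := by simp
  have hkey : ∀ s, μ (A n s) ≤ ∫⁻ x, M (s, true) x ∂μ + ∫⁻ x, M (s, false) x ∂μ := by
    intro s
    have h1 : ∀ᵐ x ∂μ, x ∈ A n s → 1 ≤ M (s, true) x + M (s, false) (T s x) := by
      filter_upwards [hfib] with x hx hxA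
      have h2 : lam (T s x) = lam x := by
        rw [hlam, hlam]
        exact congrArg κ (show tau n (T s x) = tau n x from hxA.symm)
      have h3 : lam x {y | tau n y = tau n x} = 1 := by
        rw [← prob_compl_eq_zero_iff (measurableSet_eq_fun (htm n) measurable_const)]
        exact hx
      calc (1 : ℝ≥0∞) = lam x {y | tau n y = tau n x} := h3.symm
        _ ≤ lam x (j978Br T (s, true) x ∪ j978Br T (s, false) (T s x)) := by
            apply measure_mono
            intro y hy
            exact j978_cover T s x y (htail n x y (show tau n x = tau n y from hy.symm))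
        _ ≤ lam x (j978Br T (s, true) x) + lam x (j978Br T (s, false) (T s x)) :=
            measure_union_le _ _
        _ = M (s, true) x + M (s, false) (T s x) := by
            simp only [M, h2]
    calc μ (A n s) = ∫⁻ _ in A n s, 1 ∂μ := by simp
      _ ≤ ∫⁻ x in A n s, (M (s, true) x + M (s, false) (T s x)) ∂μ :=
          lintegral_mono_ae ((ae_restrict_iff' (hAm n s)).2 h1)
      _ ≤ ∫⁻ x, (M (s, true) x + M (s, false) (T s x)) ∂μ := setLIntegral_le_lintegral _ _
      _ = ∫⁻ x, M (s, true) x ∂μ + ∫⁻ x, M (s, false) (T s x) ∂μ :=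
          lintegral_add_left (hMm _) _
      _ = ∫⁻ x, M (s, true) x ∂μ + ∫⁻ x, M (s, false) x ∂μ := by
          rw [(hT s).lintegral_comp (hMm _)]
  have hfin : μ (A n false) + μ (A n true) ≤ 1 := by
    calc μ (A n false) + μ (A n true)
        ≤ (∫⁻ x, M (false, true) x ∂μ + ∫⁻ x, M (false, false) x ∂μ) +
          (∫⁻ x, M (true, true) x ∂μ + ∫⁻ x, M (true, false) x ∂μ) :=
          add_le_add (hkey false) (hkey true)
      _ = ∑ l : Bool × Bool, ∫⁻ x, M l x ∂μ := by
          rw [Fintype.sum_prod_type]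
          simp only [Fintype.sum_bool]
          ring
      _ ≤ 1 := hint
  exact absurd hn (not_lt.2 hfin)

end Pool.Agent.Helper461.E2
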