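import Mathlib
import Pool.Agent.Helper461.E2.Cover

set_option autoImplicit false

namespace Pool.Agent.Helper461.E2

noncomputable section

/-- vertices of level `k` -/
def V : ℕ → Type
  | 0 => Unit
  | k + 1 => (V k × Bool → Bool) × V k

instance instFiniteV : ∀ k, Finite (V k)
  | 0 => inferInstanceAs (Finite Unit)
  | k + 1 => by
    have := instFiniteV k
    exact inferInstanceAs (Finite ((V k × Bool → Bool) × V k))

/-- the two generators at level `k` -/
def tk : (k : ℕ) → Bool → Equiv.Perm (V k)
  | 0 => fun _ => 1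
  | k + 1 => fun s => cov (tk k) s

lemma gir_tk : ∀ k, Gir (tk k) (2 ^ k)
  | 0 => by
    intro w hw _ _ _
    have := List.length_pos_of_ne_nil hw
    rw [pow_zero]
    omega
  | k + 1 => by
    have h := gir_cov (tk k) (gir_tk k)
    rw [pow_succ, mul_two]
    exact h

/-- the space -/
abbrev Y : Type := (k : ℕ) → V k × Bool → Bool

/-- restriction to level `k` -/
def res : (k : ℕ) → Y → V k
  | 0 => fun _ => ()
  | k + 1 => fun x => (x k, res k x)

/-- the generators on the space -/
def T0 (s : Bool) (x : Y) : Y := fun k => flip (x k) (res k x, s)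

def T1 (s : Bool) (x : Y) : Y := fun k => flip (x k) ((tk k s).symm (res k x), s)

lemma res_T0 (s : Bool) (x : Y) : ∀ k, res k (T0 s x) = tk k s (res k x)
  | 0 => rfl
  | k + 1 => by
    change (T0 s x k, res k (T0 s x)) = (flip (x k) (res k x, s), tk k s (res k x))
    rw [res_T0 s x k]
    rfl

lemma res_T1 (s : Bool) (x : Y) : ∀ k, res k (T1 s x) = (tk k s).symm (res k x)
  | 0 => rfl
  | k + 1 => by
    change (T1 s x k, res k (T1 s x)) =
      (flip (x k) ((tk k s).symm (res k x), s), (tk k s).symm (res k x))
    rw [res_T1 s x k]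
    rfl

def TT (s : Bool) : Equiv.Perm Y where
  toFun := T0 s
  invFun := T1 s
  left_inv x := by
    funext k
    change flip (flip (x k) (res k x, s)) ((tk k s).symm (res k (T0 s x)), s) = x k
    rw [res_T0, Equiv.symm_apply_apply, flip_flip]
  right_inv x := by
    funext k
    change flip (flip (x k) ((tk k s).symm (res k x), s)) (res k (T1 s x), s) = x k
    rw [res_T1, flip_flip]

lemma res_step (l : Bool × Bool) (x : Y) (k : ℕ) :
    res k (step TT l x) = step (tk k) l (res k x) := by
  obtain ⟨s, b⟩ := l
  cases b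
  · exact res_T1 s x k
  · exact res_T0 s x k

lemma res_act (w : List (Bool × Bool)) (x : Y) (k : ℕ) :
    res k (act TT w x) = act (tk k) w (res k x) := by
  induction w with
  | nil => rfl
  | cons l w ih => simp only [act, res_step, ih]

lemma res_inj {x y : Y} (h : ∀ k, res k x = res k y) : x = y := by
  funext k
  exact congrArg Prod.fst (h (k + 1))

lemma res_eq_of_succ {x y : Y} {k : ℕ} (h : res (k + 1) x = res (k + 1) y) :
    res k x = res k y := congrArg Prod.snd h

lemma res_eq_of_le {x y : Y} {k m : ℕ} (hk : k ≤ m) (h : res m x = res m y) :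
    res k x = res k y := by
  induction m, hk using Nat.le_induction with
  | base => exact h
  | succ m _ ih => exact ih (res_eq_of_succ h)

lemma step_coord (l : Bool × Bool) (x : Y) (k : ℕ) :
    step TT l x k = flip (x k) (edge (tk k) l (res k x)) := by
  obtain ⟨s, b⟩ := l
  cases b <;> rfl

/-- free group action versus words -/
lemma lift_mk_act {U : Type} (t : Bool → Equiv.Perm U) (w : List (Bool × Bool)) (v : U) :
    FreeGroup.lift t (FreeGroup.mk w) v = act t w v := by
  induction w with
  | nil => simp [act, ← FreeGroup.one_eq_mk]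
  | cons l w ih =>
    have h : FreeGroup.mk (l :: w) = FreeGroup.mk [l] * FreeGroup.mk w := by
      rw [FreeGroup.mul_mk]
      rfl
    rw [h, map_mul, Equiv.Perm.mul_apply, ih]
    obtain ⟨s, b⟩ := l
    cases b
    · simp only [act, step, Bool.false_eq_true, if_false]
      rw [FreeGroup.lift_mk]
      simp
    · simp only [act, step, if_true]
      rw [FreeGroup.lift_mk]
      simp

lemma lift_act {U : Type} (t : Bool → Equiv.Perm U) (γ : FreeGroup Bool) (v : U) :
    FreeGroup.lift t γ v = act t γ.toWord v := by
  rw [← lift_mk_act, FreeGroup.mk_toWord]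

lemma fix_norm (k : ℕ) (γ : FreeGroup Bool) (v : V k)
    (h : FreeGroup.lift (tk k) γ v = v) (hn : γ.norm < 2 ^ k) : γ = 1 := by
  by_contra hne
  have h1 : γ.toWord ≠ [] := by
    rw [Ne, FreeGroup.toWord_eq_nil_iff]
    exact hne
  rw [lift_act] at h
  have h2 := gir_tk k γ.toWord h1 FreeGroup.isReduced_toWord v h
  have h3 : γ.norm = γ.toWord.length := rfl
  omega

/-- the action is free -/
lemma free_TT (γ : FreeGroup Bool) (x : Y) (h : FreeGroup.lift TT γ x = x) : γ = 1 := by
  have h1 : γ.norm < 2 ^ γ.norm := Nat.lt_two_pow_self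
  refine fix_norm γ.norm γ (res γ.norm x) ?_ h1
  rw [lift_act] at h ⊢
  rw [← res_act, h]

/-- the invariant bits -/
def q (x : Y) (k : ℕ) (v : V k) : Bool := xor (bd (tk k) (x k) v) (eqb v (res k x))

lemma q_step (l : Bool × Bool) (x : Y) (k : ℕ) (v : V k) : q (step TT l x) k v = q x k v := by
  unfold q
  rw [step_coord, bd_flip, res_step]
  generalize bd (tk k) (x k) v = A
  generalize eqb v (res k x) = B
  generalize eqb v (step (tk k) l (res k x)) = C
  revert A B C
  decide

/-- one level: few differing edges and equal invariants give a short word -/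
lemma short_word (x y : Y) (k : ℕ)
    (hc : 8 * {a : V k × Bool | x k a ≠ y k a}.ncard < 2 ^ k) (hq : q x k = q y k) :
    ∃ w : List (Bool × Bool), 8 * w.length < 2 ^ k ∧
      act (tk (k + 1)) w (res (k + 1) x) = res (k + 1) y := by
  set p : V k × Bool → Bool := fun e => xor (x k e) (y k e) with hp
  have hcard : card p = {a : V k × Bool | x k a ≠ y k a}.ncard := by
    unfold card
    congr 1
    ext e
    simp only [hp, Set.mem_ofPred_eq]
    cases x k e <;> cases y k e <;> simp
  have hbd : ∀ z, bd (tk k) p z = xor (eqb z (res k x)) (eqb z (res k y)) := by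
    intro z
    rw [hp, bd_xor]
    have h1 := congrFun hq z
    simp only [q] at h1
    revert h1
    generalize bd (tk k) (x k) z = A
    generalize bd (tk k) (y k) z = B
    generalize eqb z (res k x) = C
    generalize eqb z (res k y) = D
    revert A B C D
    decide
  obtain ⟨w, -, hact, hlen, hcard2, -⟩ := trail (tk k) (card p) p (res k x) (res k y) rfl hbd
  have hzero : ∀ e, xor (p e) (par (tk k) w (res k x) e) = false := by
    by_contra hcon
    push Not at hcon
    obtain ⟨e, he⟩ := hcon
    have h1 := even_large (tk k) (gir_tk k) (fun e => xor (p e) (par (tk k) w (res k x) e)) (by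
      intro z
      rw [bd_xor, hbd, bd_par, hact]
      generalize eqb z (res k x) = A
      generalize eqb z (res k y) = B
      revert A B
      decide) ⟨e, by simpa using he⟩
    omega
  refine ⟨w, by omega, ?_⟩
  change act (cov (tk k)) w (x k, res k x) = (y k, res k y)
  rw [act_cov, hact]
  refine Prod.ext ?_ rfl
  funext e
  have h2 := hzero e
  simp only [hp] at h2
  change xor (x k e) (par (tk k) w (res k x) e) = y k e
  revert h2
  generalize x k e = A
  generalize y k e = B
  generalize par (tk k) w (res k x) e = C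
  revert A B C
  decide

/-- eventual closeness and equality of invariants imply orbit equivalence -/
lemma orbit_of_close (x y : Y) (K : ℕ)
    (h : ∀ k, K ≤ k → 8 * {a : V k × Bool | x k a ≠ y k a}.ncard < 2 ^ k ∧ q x k = q y k) :
    ∃ γ : FreeGroup Bool, FreeGroup.lift TT γ x = y := by
  have hw : ∀ k, K ≤ k → ∃ w : List (Bool × Bool), 8 * w.length < 2 ^ k ∧
      act (tk (k + 1)) w (res (k + 1) x) = res (k + 1) y :=
    fun k hk => short_word x y k (h k hk).1 (h k hk).2
  choose! w hw1 hw2 using hw
  have hnorm : ∀ k, K ≤ k → 8 * (FreeGroup.mk (w k)).norm < 2 ^ k := by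
    intro k hk
    have h1 : (FreeGroup.mk (w k)).norm ≤ (w k).length := FreeGroup.norm_mk_le
    have h2 := hw1 k hk
    omega
  have hconst : ∀ k, K ≤ k → FreeGroup.mk (w (k + 1)) = FreeGroup.mk (w k) := by
    intro k hk
    have h1 : FreeGroup.lift (tk (k + 1)) ((FreeGroup.mk (w k))⁻¹ * FreeGroup.mk (w (k + 1)))
        (res (k + 1) x) = res (k + 1) x := by
      rw [map_mul, Equiv.Perm.mul_apply, lift_mk_act, map_inv, Equiv.Perm.inv_def,
        Equiv.symm_apply_eq, lift_mk_act, hw2 k hk, ← res_act]
      refine res_eq_of_succ ?_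
      rw [res_act]
      exact hw2 (k + 1) (by omega)
    have h2 : ((FreeGroup.mk (w k))⁻¹ * FreeGroup.mk (w (k + 1))).norm < 2 ^ (k + 1) := by
      have h3 := FreeGroup.norm_mul_le (FreeGroup.mk (w k))⁻¹ (FreeGroup.mk (w (k + 1)))
      rw [FreeGroup.norm_inv_eq] at h3
      have h4 := hnorm k hk
      have h5 := hnorm (k + 1) (by omega)
      have h6 : 2 ^ (k + 1) = 2 * 2 ^ k := by rw [pow_succ]; ring
      omega
    have h3 := fix_norm (k + 1) _ _ h1 h2
    rw [inv_mul_eq_one] at h3
    exact h3.symm
  have hall : ∀ k, K ≤ k → FreeGroup.mk (w k) = FreeGroup.mk (w K) := by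
    intro k hk
    induction k, hk using Nat.le_induction with
    | base => rfl
    | succ k hk ih => rw [hconst k hk, ih]
  refine ⟨FreeGroup.mk (w K), ?_⟩
  rw [lift_mk_act]
  apply res_inj
  intro k
  have h1 : res (max k K + 1) (act TT (w K) x) = res (max k K + 1) y := by
    rw [res_act, ← lift_mk_act, ← hall (max k K) (le_max_right _ _), lift_mk_act]
    exact hw2 _ (le_max_right _ _)
  exact res_eq_of_le (by omega) h1

/-- a generator changes at most one bit per level -/
lemma step_ncard (l : Bool × Bool) (x : Y) (k : ℕ) :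
    {a : V k × Bool | x k a ≠ step TT l x k a}.ncard ≤ 1 := by
  have hsub : {a : V k × Bool | x k a ≠ step TT l x k a} ⊆ {edge (tk k) l (res k x)} := by
    intro a ha
    rw [Set.mem_singleton_iff]
    by_contra hne
    apply ha
    rw [step_coord, flip_ne _ hne]
  exact (Set.ncard_le_ncard hsub (Set.toFinite _)).trans (Set.ncard_singleton _).le

end

end Pool.Agent.Helper461.E2
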