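import Mathlib
import Pool.Agent.Helper461.E2.Levels
import Pool.Agent.Helper461.E2.FreeNotE0
import Pool.Agent.Helper461.E2.Coding

set_option autoImplicit false

open MeasureTheory

namespace Pool.Agent.Helper461.E2

noncomputable section

instance instMeasV (k : ℕ) : MeasurableSpace (V k) := ⊤

instance instDiscV (k : ℕ) : DiscreteMeasurableSpace (V k) := ⟨fun _ => trivial⟩

lemma measurableSet_res : ∀ (k : ℕ) (v : V k), MeasurableSet {x : Y | res k x = v}
  | 0, v => by
    have : {x : Y | res 0 x = v} = Set.univ := by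
      ext x
      simp only [Set.mem_ofPred_eq, Set.mem_univ, iff_true]
      rfl
    rw [this]
    exact MeasurableSet.univ
  | k + 1, v => by
    obtain ⟨p, u⟩ : (V k × Bool → Bool) × V k := v
    have : {x : Y | res (k + 1) x = (p, u)} = {x : Y | x k = p} ∩ {x : Y | res k x = u} := by
      ext x
      exact Prod.ext_iff
    rw [this]
    exact ((measurable_pi_apply k) (measurableSet_singleton p)).inter (measurableSet_res k u)

lemma measurable_res (k : ℕ) : Measurable (res k) :=
  measurable_to_countable' fun v => measurableSet_res k v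

lemma measurable_flip (c : (k : ℕ) → V k → V k × Bool) :
    Measurable fun (x : Y) (k : ℕ) => flip (x k) (c k (res k x)) := by
  refine measurable_pi_iff.2 fun k => measurable_pi_iff.2 fun e => ?_
  have h1 : Measurable fun x : Y => (x k e, res k x) :=
    ((measurable_pi_apply e).comp (measurable_pi_apply k)).prodMk (measurable_res k)
  have h2 : Measurable fun z : Bool × V k => xor z.1 (eqb e (c k z.2)) := Measurable.of_discrete
  exact h2.comp h1

lemma measurable_T0 (s : Bool) : Measurable (T0 s) := measurable_flip fun _ v => (v, s)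

lemma measurable_T1 (s : Bool) : Measurable (T1 s) :=
  measurable_flip fun k v => ((tk k s).symm v, s)

/-- uniform measure on a level -/
def nu (k : ℕ) : Measure (V k × Bool → Bool) := ProbabilityTheory.uniformOn Set.univ

instance (k : ℕ) : IsProbabilityMeasure (nu k) :=
  ProbabilityTheory.instIsProbabilityMeasure_uniformOn_univ

lemma nu_singleton (k : ℕ) (p p' : V k × Bool → Bool) : nu k {p} = nu k {p'} := by
  have := Fintype.ofFinite (V k × Bool → Bool)
  unfold nu
  rw [ProbabilityTheory.uniformOn_univ, ProbabilityTheory.uniformOn_univ,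
    Measure.count_singleton, Measure.count_singleton]

/-- product measure -/
def mu : Measure Y := Measure.infinitePi nu

instance : IsProbabilityMeasure mu := by
  unfold mu
  infer_instance

lemma res_eq_iff (x y : Y) : ∀ k, res k x = res k y ↔ ∀ j ∈ Finset.range k, x j = y j
  | 0 => by
    constructor
    · intro _ j hj
      simp at hj
    · intro _
      rfl
  | k + 1 => by
    have h : res (k + 1) x = res (k + 1) y ↔ x k = y k ∧ res k x = res k y := Prod.ext_iff
    rw [h, res_eq_iff x y k]
    constructor
    · rintro ⟨h1, h2⟩ j hj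
      rcases Nat.lt_succ_iff_lt_or_eq.1 (Finset.mem_range.1 hj) with h3 | h3
      · exact h2 j (Finset.mem_range.2 h3)
      · rw [h3]; exact h1
    · intro h1
      exact ⟨h1 k (Finset.self_mem_range_succ k),
        fun j hj => h1 j (Finset.mem_range.2 (by have := Finset.mem_range.1 hj; omega))⟩

lemma mu_cyl (k : ℕ) (x y : Y) :
    mu {z : Y | res k z = res k x} = mu {z : Y | res k z = res k y} := by
  have h : ∀ x : Y, {z : Y | res k z = res k x} =
      Set.pi (Finset.range k : Set ℕ) (fun j => {x j}) := by
    intro x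
    ext z
    simp only [Set.mem_ofPred_eq, res_eq_iff, Set.mem_pi, Finset.mem_coe, Set.mem_singleton_iff]
  rw [h x, h y]
  unfold mu
  rw [Measure.infinitePi_pi _ (fun i _ => measurableSet_singleton _),
    Measure.infinitePi_pi _ (fun i _ => measurableSet_singleton _)]
  exact Finset.prod_congr rfl fun j _ => nu_singleton j _ _

lemma map_tk (k : ℕ) (s : Bool) : (mu.map (res k)).map (tk k s) = mu.map (res k) := by
  refine Measure.ext_of_singleton ?_
  intro v
  have hm : Measurable (tk k s) := Measurable.of_discrete
  rw [Measure.map_apply hm (measurableSet_singleton v),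
    Measure.map_apply (measurable_res k) (hm (measurableSet_singleton v)),
    Measure.map_apply (measurable_res k) (measurableSet_singleton v)]
  by_cases hx : ∃ x : Y, res k x = v
  · obtain ⟨x, rfl⟩ := hx
    have h1 : res k ⁻¹' (tk k s ⁻¹' {res k x}) = {z : Y | res k z = res k (T1 s x)} := by
      ext z
      simp only [Set.mem_preimage, Set.mem_singleton_iff, Set.mem_ofPred_eq, res_T1]
      constructor
      · intro h
        rw [← h, Equiv.symm_apply_apply]
      · intro h
        rw [h, Equiv.apply_symm_apply]
    rw [h1]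
    exact mu_cyl k (T1 s x) x
  · have h1 : res k ⁻¹' (tk k s ⁻¹' {v}) = ∅ := by
      rw [Set.eq_empty_iff_forall_notMem]
      intro z hz
      exact hx ⟨T0 s z, by rw [res_T0]; exact hz⟩
    have h2 : res k ⁻¹' {v} = ∅ := by
      rw [Set.eq_empty_iff_forall_notMem]
      intro z hz
      exact hx ⟨z, hz⟩
    rw [h1, h2]

lemma mp_TT (s : Bool) : MeasurePreserving (TT s) mu mu := by
  refine ⟨measurable_T0 s, ?_⟩
  conv_rhs => unfold mu
  refine Measure.eq_infinitePi nu ?_
  intro S t ht
  have hBm : MeasurableSet (Set.pi (S : Set ℕ) t) :=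
    MeasurableSet.pi S.countable_toSet fun i _ => ht i
  have hT : Measurable (TT s) := measurable_T0 s
  rw [Measure.map_apply hT hBm]
  obtain ⟨k, hk⟩ : ∃ k, ∀ i ∈ S, i < k := ⟨S.sup id + 1, fun i hi => by
    have : i ≤ S.sup id := Finset.le_sup (f := id) hi
    omega⟩
  have hB : Set.pi (S : Set ℕ) t = res k ⁻¹' (res k '' (Set.pi (S : Set ℕ) t)) := by
    refine Set.Subset.antisymm (Set.subset_preimage_image _ _) ?_
    rintro x ⟨y, hy, hxy⟩
    rw [res_eq_iff] at hxy
    intro i hi
    rw [← hxy i (Finset.mem_range.2 (hk i hi))]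
    exact hy i hi
  have h1 : mu (TT s ⁻¹' (Set.pi (S : Set ℕ) t)) = mu (Set.pi (S : Set ℕ) t) := by
    generalize hA : res k '' (Set.pi (S : Set ℕ) t) = A at hB
    have hm : Measurable (tk k s) := Measurable.of_discrete
    have hAm : MeasurableSet A := trivial
    rw [hB]
    have h2 : TT s ⁻¹' (res k ⁻¹' A) = res k ⁻¹' (tk k s ⁻¹' A) := by
      ext x
      simp only [Set.mem_preimage]
      rw [show res k (TT s x) = tk k s (res k x) from res_T0 s x k]
    rw [h2, ← Measure.map_apply (measurable_res k) (hm hAm), ← Measure.map_apply hm hAm,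
      map_tk, Measure.map_apply (measurable_res k) hAm]
  rw [h1]
  unfold mu
  exact Measure.infinitePi_pi _ fun i _ => ht i

/-- orbit equivalence -/
def Orb (x y : Y) : Prop := ∃ γ : FreeGroup Bool, FreeGroup.lift TT γ x = y

lemma orb_equiv : Equivalence Orb where
  refl x := ⟨1, by simp⟩
  symm := by
    rintro x y ⟨γ, h⟩
    refine ⟨γ⁻¹, ?_⟩
    rw [map_inv, Equiv.Perm.inv_def, Equiv.symm_apply_eq, h]
  trans := by
    rintro x y z ⟨γ, h⟩ ⟨δ, h'⟩
    refine ⟨δ * γ, ?_⟩
    rw [map_mul, Equiv.Perm.mul_apply, h, h']

lemma orb_countable (y : Y) : {z | Orb y z}.Countable := by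
  have h : {z | Orb y z} = Set.range fun γ : FreeGroup Bool => FreeGroup.lift TT γ y := by
    ext z
    rfl
  rw [h]
  exact Set.countable_range _

lemma orb_measurable : MeasurableSet {p : Y × Y | Orb p.1 p.2} := by
  have h : {p : Y × Y | Orb p.1 p.2} =
      ⋃ γ : FreeGroup Bool, {p : Y × Y | FreeGroup.lift TT γ p.1 = p.2} := by
    ext p
    simp [Orb]
  rw [h]
  refine MeasurableSet.iUnion fun γ => ?_
  exact measurableSet_eq_fun
    ((j978_lift_meas TT measurable_T0 measurable_T1 γ).comp measurable_fst) measurable_snd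

lemma not_E0 : ¬ ∃ f : Y → (ℕ → Bool), Measurable f ∧ ∀ x y : Y,
    (Orb x y ↔ ∃ N : ℕ, ∀ n : ℕ, N ≤ n → f x n = f y n) :=
  free_not_E0 mu TT mp_TT measurable_T1 free_TT

/-- harmonic closeness -/
def Har (a b : ℕ → Bool) : Prop :=
  Summable (fun n : ℕ => if a n = b n then (0 : ℝ) else (1 : ℝ) / ((n : ℝ) + 1))

lemma har_refl (a : ℕ → Bool) : Har a a := by
  unfold Har
  simp only [if_true]
  exact summable_zero

lemma har_trans {a b c : ℕ → Bool} (h1 : Har a b) (h2 : Har b c) : Har a c := by
  refine Summable.of_nonneg_of_le ?_ ?_ (Summable.add h1 h2)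
  · intro n
    split_ifs
    · exact le_rfl
    · positivity
  · intro n
    have hp : (0 : ℝ) ≤ 1 / ((n : ℝ) + 1) := by positivity
    by_cases h3 : a n = b n
    · by_cases h4 : b n = c n
      · simp [h3, h4]
      · simp [h3, h4]
    · by_cases h4 : b n = c n
      · rw [if_neg h3]
        split_ifs <;> linarith
      · rw [if_neg h3, if_neg h4]
        split_ifs <;> linarith

lemma le_E2 : ∃ f : Y → (ℕ → Bool), Measurable f ∧ ∀ x y : Y, (Orb x y ↔
    Summable (fun n : ℕ => if f x n = f y n then (0 : ℝ) else (1 : ℝ) / ((n : ℝ) + 1))) := by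
  obtain ⟨Φ, h1, h2, h3⟩ := coding (fun k => V k × Bool) (fun k => V k)
  refine ⟨fun x => Φ x (q x), ?_, ?_⟩
  · refine measurable_pi_iff.2 fun n => ?_
    rcases h1 n with h | ⟨k, a, h⟩ | ⟨k, v, h⟩
    · simp only [h]
      exact measurable_const
    · simp only [h]
      exact (measurable_pi_apply a).comp (measurable_pi_apply k)
    · simp only [h]
      have hq : (fun x : Y => q x k v) =
          (fun z : V (k + 1) => xor (bd (tk k) z.1 v) (eqb v z.2)) ∘ res (k + 1) := rfl
      rw [hq]
      exact (Measurable.of_discrete).comp (measurable_res (k + 1))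
  · intro x y
    constructor
    · rintro ⟨γ, rfl⟩
      rw [lift_act]
      change Har _ _
      induction γ.toWord with
      | nil => exact har_refl _
      | cons l w ih =>
        refine har_trans ih ?_
        have hq : q (act TT w x) = q (act TT (l :: w) x) := by
          funext k v
          exact (q_step l (act TT w x) k v).symm
        change Har (Φ (act TT w x) (q (act TT w x))) (Φ (act TT (l :: w) x)
          (q (act TT (l :: w) x)))
        rw [hq]
        exact h2 _ _ _ fun k => step_ncard l (act TT w x) k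
    · intro hs
      obtain ⟨K, hK⟩ := h3 _ _ _ _ hs
      exact orbit_of_close x y K hK

end

end Pool.Agent.Helper461.E2
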