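import Mathlib
import Pool.Agent.Helper461.E2.Space
import Pool.Agent.Helper461.E2.NotCountable

set_option autoImplicit false

namespace Pool.Agent.Helper461.E2

lemma not_E2_le : ¬ ∃ g : (ℕ → Bool) → Y, Measurable g ∧ ∀ a b : ℕ → Bool,
    (Summable (fun n : ℕ => if a n = b n then (0 : ℝ) else (1 : ℝ) / ((n : ℝ) + 1))
      ↔ Orb (g a) (g b)) :=
  e2_not_countable Orb orb_countable

end Pool.Agent.Helper461.E2
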